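import Mathlib

open Polynomial

namespace Pool.Agent.MP32694d

/-- `f` and `g` share no root in `ℂ`. -/
def CoprimeC (f g : ℤ[X]) : Prop := ∀ z : ℂ, ¬ (aeval z f = 0 ∧ aeval z g = 0)

/-- `(p, q)` is the Bézout pair of `f, g`: rational polynomials with `p f + q g = 1`,
`deg p < deg g` and `deg q < deg f`. -/
def IsBezoutPair (f g : ℤ[X]) (p q : ℚ[X]) : Prop :=
  p * f.map (Int.castRingHom ℚ) + q * g.map (Int.castRingHom ℚ) = 1 ∧
    p.degree < g.degree ∧ q.degree < f.degree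

/-- All coefficients of the rational polynomial `r` are integers. -/
def HasIntCoeffs (r : ℚ[X]) : Prop := ∀ i, ∃ a : ℤ, r.coeff i = a

/-- The Bézout denominator `B(f, g)`: the least positive integer `N` such that `N p` and `N q` have
integer coefficients, `(p, q)` being the Bézout pair of `f, g`. -/
noncomputable def bezoutDenominator (f g : ℤ[X]) : ℕ :=
  sInf {N : ℕ | 0 < N ∧ ∃ p q : ℚ[X], IsBezoutPair f g p q ∧
    HasIntCoeffs (C (N : ℚ) * p) ∧ HasIntCoeffs (C (N : ℚ) * q)}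

/-- `R(f, g) = |Res(f, g)|`. -/
noncomputable def absResultant (f g : ℤ[X]) : ℕ := (resultant f g).natAbs

/-- `𝒫_k(H)`: the integer polynomials of exact degree `k` with positive leading coefficient and all
coefficients in `[-H, H]`. -/
def polyBox (k H : ℕ) : Set ℤ[X] :=
  {f | f.natDegree = k ∧ 0 < f.leadingCoeff ∧ ∀ i, |f.coeff i| ≤ (H : ℤ)}

/-- `S_{m,n}(H)`: the coprime pairs in `𝒫_m(H) × 𝒫_n(H)`. -/
def coprimePairs (m n H : ℕ) : Set (ℤ[X] × ℤ[X]) :=
  {fg | fg.1 ∈ polyBox m H ∧ fg.2 ∈ polyBox n H ∧ CoprimeC fg.1 fg.2}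

/-- `E_{m,n}(H)`: the pairs in `S_{m,n}(H)` with `B(f, g) = R(f, g)`. -/
def equalPairs (m n H : ℕ) : Set (ℤ[X] × ℤ[X]) :=
  {fg | fg ∈ coprimePairs m n H ∧ bezoutDenominator fg.1 fg.2 = absResultant fg.1 fg.2}

/-- `ρ_{m,n}(H) = #E_{m,n}(H) / #S_{m,n}(H)`. -/
noncomputable def rho (m n H : ℕ) : ℝ :=
  ((equalPairs m n H).ncard : ℝ) / ((coprimePairs m n H).ncard : ℝ)

end Pool.Agent.MP32694d
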