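import Mathlib
import Pool.Agent.MP32694d.Defs

open Polynomial

namespace Pool.Agent.MP32694d

section LinAlg

variable {K : Type*} [Field K] {N : Type*} [Fintype N] [DecidableEq N]

/-- Over a field: the square matrix `A` is invertible or `A.cramer e ≠ 0` iff the columns of `A`
together with `e` span the whole space. -/
lemma cramer_criterion (A : Matrix N N K) (e : N → K) :
    (A.det ≠ 0 ∨ A.cramer e ≠ 0) ↔ ∀ u : N → K, ∃ (w : N → K) (c : K), u = A.mulVec w + c • e := by
  constructor
  · rintro (h | h) u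
    · refine ⟨A⁻¹.mulVec u, 0, ?_⟩
      rw [Matrix.mulVec_mulVec, Matrix.mul_nonsing_inv _ (isUnit_iff_ne_zero.mpr h)]
      simp
    · obtain ⟨j, hj⟩ := Function.ne_iff.mp h
      rw [Matrix.cramer_apply] at hj
      set A' := A.updateCol j e with hA'
      have hdet : A'.det ≠ 0 := by simpa using hj
      set w' := A'⁻¹.mulVec u with hw'
      have hu : A'.mulVec w' = u := by
        rw [hw', Matrix.mulVec_mulVec, Matrix.mul_nonsing_inv _ (isUnit_iff_ne_zero.mpr hdet)]
        simp
      refine ⟨Function.update w' j 0, w' j, ?_⟩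
      rw [← hu]
      ext i
      simp only [Matrix.mulVec, dotProduct, Pi.add_apply, Pi.smul_apply, smul_eq_mul]
      rw [← Finset.add_sum_erase _ _ (Finset.mem_univ j),
        ← Finset.add_sum_erase _ (fun x => A i x * Function.update w' j 0 x)
          (Finset.mem_univ j)]
      simp only [hA', Matrix.updateCol_self, Function.update_self, mul_zero, zero_add]
      rw [add_comm, mul_comm (e i)]
      congr 1
      refine Finset.sum_congr rfl fun k hk => ?_
      have hkj : k ≠ j := (Finset.mem_erase.mp hk).1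
      rw [Matrix.updateCol_ne hkj, Function.update_of_ne hkj]
  · intro h
    by_contra hcon
    push Not at hcon
    obtain ⟨hdet, hcr⟩ := hcon
    obtain ⟨w0, hw0, hAw0⟩ := Matrix.exists_mulVec_eq_zero_iff.mpr hdet
    obtain ⟨j, hj⟩ := Function.ne_iff.mp hw0
    have h1 : (A.updateCol j e).det = 0 := by
      rw [← Matrix.cramer_apply, hcr]; rfl
    obtain ⟨y, hy, hyA⟩ := Matrix.exists_vecMul_eq_zero_iff.mpr h1
    -- y is orthogonal to all columns other than j and to e
    have hyk : ∀ k, k ≠ j → (∑ i, y i * A i k) = 0 := by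
      intro k hk
      have := congrFun hyA k
      simpa [Matrix.vecMul, dotProduct, Matrix.updateCol_ne hk] using this
    have hye : (∑ i, y i * e i) = 0 := by
      have := congrFun hyA j
      simpa [Matrix.vecMul, dotProduct, Matrix.updateCol_self] using this
    have hyj : (∑ i, y i * A i j) = 0 := by
      have h2 : ∑ i, y i * (A.mulVec w0) i = 0 := by
        rw [hAw0]; simp
      have h3 : ∑ i, y i * (A.mulVec w0) i = ∑ k, (∑ i, y i * A i k) * w0 k := by
        simp only [Matrix.mulVec, dotProduct, Finset.mul_sum, Finset.sum_mul]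
        rw [Finset.sum_comm]
        refine Finset.sum_congr rfl fun k _ => Finset.sum_congr rfl fun i _ => by ring
      rw [h3, Finset.sum_eq_single j] at h2
      · exact (mul_eq_zero.mp h2).resolve_right (by simpa using hj)
      · intro k _ hk
        rw [hyk k hk, zero_mul]
      · simp
    have hyall : ∀ k, (∑ i, y i * A i k) = 0 := by
      intro k
      by_cases hk : k = j
      · rw [hk]; exact hyj
      · exact hyk k hk
    apply hy
    ext i
    obtain ⟨w, c, hu⟩ := h (Pi.single i 1)
    have h4 : ∑ k, y k * (Pi.single i (1 : K) : N → K) k = y i := by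
      simp [Pi.single_apply]
    rw [hu] at h4
    rw [← h4]
    simp only [Pi.add_apply, Pi.smul_apply, smul_eq_mul, mul_add, Finset.sum_add_distrib,
      Pi.zero_apply]
    have h5 : ∑ k, y k * (A.mulVec w) k = ∑ l, (∑ k, y k * A k l) * w l := by
      simp only [Matrix.mulVec, dotProduct, Finset.mul_sum, Finset.sum_mul]
      rw [Finset.sum_comm]
      refine Finset.sum_congr rfl fun k _ => Finset.sum_congr rfl fun i _ => by ring
    have h6 : ∑ k, y k * (c * e k) = c * ∑ k, y k * e k := by
      rw [Finset.mul_sum]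
      exact Finset.sum_congr rfl fun k _ => by ring
    rw [h5, h6, hye]
    simp [hyall]

end LinAlg

section Sylv

variable {R : Type*} [CommRing R]

/-- The polynomial with the given coefficients. -/
noncomputable def vecPoly {k : ℕ} (a : Fin k → R) : R[X] := ∑ i : Fin k, C (a i) * X ^ (i : ℕ)

lemma vecPoly_coeff {k : ℕ} (a : Fin k → R) (j : ℕ) :
    (vecPoly a).coeff j = if h : j < k then a ⟨j, h⟩ else 0 := by
  unfold vecPoly
  simp only [finsetSum_coeff, coeff_C_mul, coeff_X_pow]
  split_ifs with h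
  · rw [Finset.sum_eq_single ⟨j, h⟩]
    · simp
    · intro b _ hb
      have : j ≠ (b : ℕ) := fun hh => hb (Fin.ext hh.symm)
      simp [this]
    · simp
  · refine Finset.sum_eq_zero fun b _ => ?_
    have : j ≠ (b : ℕ) := fun hh => h (hh ▸ b.2)
    simp [this]

lemma vecPoly_degree_lt {k : ℕ} (a : Fin k → R) : (vecPoly a).degree < k := by
  rw [degree_lt_iff_coeff_zero]
  intro j hj
  rw [vecPoly_coeff, dif_neg (by omega)]

lemma vecPoly_of_degree_lt {k : ℕ} (p : R[X]) (hp : p.degree < k) :
    vecPoly (fun i : Fin k => p.coeff i) = p := by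
  ext j
  rw [vecPoly_coeff]
  split_ifs with h
  · rfl
  · rw [degree_lt_iff_coeff_zero] at hp
    exact (hp j (by omega)).symm

lemma vecPoly_injective {k : ℕ} : Function.Injective (vecPoly (R := R) (k := k)) := by
  intro a b h
  ext i
  have := congrArg (fun p => p.coeff i) h
  simpa [vecPoly_coeff] using this

/-- The Sylvester matrix acts as `(q, p) ↦ f * p + g * q`. -/
lemma sylvester_mulVec (f g : R[X]) {m n : ℕ} (hf : f.natDegree ≤ m) (hg : g.natDegree ≤ n)
    (w : Fin (m + n) → R) (i : Fin (m + n)) :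
    ((sylvester f g m n).mulVec w) i =
      (f * vecPoly (fun j : Fin n => w (Fin.natAdd m j)) +
        g * vecPoly (fun j : Fin m => w (Fin.castAdd n j))).coeff i := by
  simp only [Matrix.mulVec, dotProduct, sylvester, Matrix.of_apply]
  rw [Fin.sum_univ_add]
  simp only [Fin.addCases_left, Fin.addCases_right, coeff_add]
  rw [add_comm]
  congr 1
  · unfold vecPoly
    rw [Finset.mul_sum, finsetSum_coeff]
    refine Finset.sum_congr rfl fun j _ => ?_
    rw [show f * (C (w (Fin.natAdd m j)) * X ^ (j : ℕ)) = C (w (Fin.natAdd m j)) * (f * X ^ (j : ℕ))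
      by ring, coeff_C_mul, coeff_mul_X_pow']
    by_cases h1 : (j : ℕ) ≤ i
    · by_cases h2 : (i : ℕ) ≤ j + m
      · rw [if_pos ⟨h1, h2⟩, if_pos h1]; ring
      · rw [if_neg (fun h => h2 h.2), if_pos h1,
          coeff_eq_zero_of_natDegree_lt (show f.natDegree < (i : ℕ) - j by omega)]; ring
    · rw [if_neg (fun h => h1 h.1), if_neg h1]; ring
  · unfold vecPoly
    rw [Finset.mul_sum, finsetSum_coeff]
    refine Finset.sum_congr rfl fun j _ => ?_
    rw [show g * (C (w (Fin.castAdd n j)) * X ^ (j : ℕ)) = C (w (Fin.castAdd n j)) * (g * X ^ (j : ℕ))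
      by ring, coeff_C_mul, coeff_mul_X_pow']
    by_cases h1 : (j : ℕ) ≤ i
    · by_cases h2 : (i : ℕ) ≤ j + n
      · rw [if_pos ⟨h1, h2⟩, if_pos h1]; ring
      · rw [if_neg (fun h => h2 h.2), if_pos h1,
          coeff_eq_zero_of_natDegree_lt (show g.natDegree < (i : ℕ) - j by omega)]; ring
    · rw [if_neg (fun h => h1 h.1), if_neg h1]; ring

end Sylv

section Good

/-- The good pairs over a field: not both formal leading coefficients vanish, and every common
divisor has degree at most one. -/
def GoodPair {K : Type*} [CommRing K] (m n : ℕ) (F G : K[X]) : Prop :=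
  (F.coeff m ≠ 0 ∨ G.coeff n ≠ 0) ∧ ∀ D : K[X], D ∣ F → D ∣ G → D.natDegree ≤ 1

variable {K : Type*} [Field K]

lemma GoodPair.symm {m n : ℕ} {F G : K[X]} (h : GoodPair m n F G) : GoodPair n m G F :=
  ⟨h.1.symm, fun D h1 h2 => h.2 D h2 h1⟩

lemma surj_of_good_aux {m n : ℕ} (hm : 1 ≤ m) (F G : K[X]) (hF : F.natDegree ≤ m)
    (hG : G.natDegree ≤ n) (hc : F.coeff m ≠ 0)
    (h : ∀ D : K[X], D ∣ F → D ∣ G → D.natDegree ≤ 1) (u : K[X]) (hu : u.degree < (m + n : ℕ)) :
    ∃ (P Q : K[X]) (c : K), P.degree < n ∧ Q.degree < m ∧ u = F * P + G * Q + C c := by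
  classical
  have hF0 : F ≠ 0 := by rintro rfl; simp at hc
  have hFd : F.degree = m := le_antisymm (natDegree_le_iff_degree_le.mp hF)
    (le_degree_of_ne_zero hc)
  obtain ⟨D, hD⟩ : ∃ D, D = EuclideanDomain.gcd F G := ⟨_, rfl⟩
  have hDF : D ∣ F := hD ▸ EuclideanDomain.gcd_dvd_left F G
  have hDG : D ∣ G := hD ▸ EuclideanDomain.gcd_dvd_right F G
  have hD0 : D ≠ 0 := fun h0 => hF0 (by rw [h0] at hDF; exact zero_dvd_iff.mp hDF)
  have hD1 := h D hDF hDG
  -- choose c with D ∣ u - C c
  obtain ⟨c, hcD⟩ : ∃ c : K, D ∣ u - C c := by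
    refine ⟨(u % D).coeff 0, ?_⟩
    have hmod : u % D = C ((u % D).coeff 0) := by
      apply eq_C_of_degree_le_zero
      have h1 := EuclideanDomain.mod_lt u hD0
      have h2 : (u % D).degree < D.degree := h1
      have h3 : D.degree ≤ 1 := by
        have := degree_le_of_natDegree_le hD1
        simpa using this
      have h4 := lt_of_lt_of_le h2 h3
      exact Nat.WithBot.lt_one_iff_le_zero.mp h4
    rw [← hmod]
    refine ⟨u / D, ?_⟩
    have h5 : D * (u / D) + u % D = u := EuclideanDomain.div_add_mod u D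
    exact (eq_sub_of_add_eq h5).symm
  obtain ⟨s, hs⟩ := hcD
  have hbez : D = F * EuclideanDomain.gcdA F G + G * EuclideanDomain.gcdB F G := by
    rw [hD]; exact EuclideanDomain.gcd_eq_gcd_ab F G
  set x := EuclideanDomain.gcdA F G
  set y := EuclideanDomain.gcdB F G
  refine ⟨x * s + G * (y * s / F), y * s % F, c, ?_, ?_, ?_⟩
  rotate_left
  · have h2 : (y * s % F).degree < F.degree := EuclideanDomain.mod_lt (y * s) hF0
    rwa [hFd] at h2
  · have h1 : y * s = F * (y * s / F) + y * s % F := (EuclideanDomain.div_add_mod _ _).symm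
    have h2 : u = D * s + C c := by rw [← hs]; ring
    rw [h2, hbez]
    linear_combination G * h1
  · set P := x * s + G * (y * s / F) with hP
    set Q := y * s % F with hQ
    have hQd : Q.degree < (m : ℕ) := by
      have h2 : (y * s % F).degree < F.degree := EuclideanDomain.mod_lt (y * s) hF0
      rwa [hFd] at h2
    have heq : F * P = u - C c - G * Q := by
      have h1 : y * s = F * (y * s / F) + Q := (EuclideanDomain.div_add_mod _ _).symm
      have h2 : u - C c = D * s := hs
      rw [h2, hbez]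
      linear_combination (-G) * h1
    have hGQ : (G * Q).degree < ((m + n : ℕ) : WithBot ℕ) := by
      by_cases hG0 : G = 0
      · rw [hG0, zero_mul, degree_zero]; exact WithBot.bot_lt_coe _
      · rw [degree_mul, add_comm m n]
        push_cast
        exact WithBot.add_lt_add_of_le_of_lt (by rwa [Ne, degree_eq_bot])
          (degree_le_of_natDegree_le hG) hQd
    have hcd : (C c : K[X]).degree < ((m + n : ℕ) : WithBot ℕ) :=
      lt_of_le_of_lt degree_C_le (by exact_mod_cast (by omega : 0 < m + n))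
    have hFP : (F * P).degree < ((m + n : ℕ) : WithBot ℕ) := by
      rw [heq]
      exact lt_of_le_of_lt (degree_sub_le _ _) (max_lt (lt_of_le_of_lt (degree_sub_le _ _)
        (max_lt hu hcd)) hGQ)
    rw [degree_mul, hFd] at hFP
    push_cast at hFP
    exact lt_of_add_lt_add_left hFP

lemma surj_of_good {m n : ℕ} (hm : 1 ≤ m) (hn : 1 ≤ n) (F G : K[X]) (hF : F.natDegree ≤ m)
    (hG : G.natDegree ≤ n) (h : GoodPair m n F G) (u : K[X]) (hu : u.degree < (m + n : ℕ)) :
    ∃ (P Q : K[X]) (c : K), P.degree < n ∧ Q.degree < m ∧ u = F * P + G * Q + C c := by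
  rcases h.1 with hc | hc
  · exact surj_of_good_aux hm F G hF hG hc h.2 u hu
  · obtain ⟨P, Q, c, h1, h2, h3⟩ := surj_of_good_aux hn G F hG hF hc
      (fun D h1 h2 => h.2 D h2 h1) u (by rwa [add_comm n m])
    exact ⟨Q, P, c, h2, h1, by rw [h3]; ring⟩

lemma good_of_surj {m n : ℕ} (hm : 1 ≤ m) (hn : 1 ≤ n) (F G : K[X]) (hF : F.natDegree ≤ m)
    (hG : G.natDegree ≤ n)
    (h : ∀ u : K[X], u.degree < (m + n : ℕ) →
      ∃ (P Q : K[X]) (c : K), P.degree < n ∧ Q.degree < m ∧ u = F * P + G * Q + C c) :
    GoodPair m n F G := by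
  constructor
  · by_contra hcon
    push Not at hcon
    obtain ⟨h1, h2⟩ := hcon
    obtain ⟨P, Q, c, hP, hQ, hu⟩ := h (X ^ (m + n - 1)) (by
      rw [degree_X_pow]; exact_mod_cast (by omega : m + n - 1 < m + n))
    have h3 : (F * P + G * Q + C c).coeff (m + n - 1) = 1 := by
      rw [← hu]; simp
    have hFl : F.natDegree ≤ m - 1 := by
      rw [natDegree_le_iff_coeff_eq_zero]
      intro N hN
      by_cases hNm : N = m
      · rw [hNm]; exact h1
      · exact coeff_eq_zero_of_natDegree_lt (by omega)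
    have hGl : G.natDegree ≤ n - 1 := by
      rw [natDegree_le_iff_coeff_eq_zero]
      intro N hN
      by_cases hNm : N = n
      · rw [hNm]; exact h2
      · exact coeff_eq_zero_of_natDegree_lt (by omega)
    have hPl : P.natDegree ≤ n - 1 := by
      rw [natDegree_le_iff_coeff_eq_zero]
      intro N hN
      exact (degree_lt_iff_coeff_zero _ _).mp hP N (by omega)
    have hQl : Q.natDegree ≤ m - 1 := by
      rw [natDegree_le_iff_coeff_eq_zero]
      intro N hN
      exact (degree_lt_iff_coeff_zero _ _).mp hQ N (by omega)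
    have hFP : (F * P).coeff (m + n - 1) = 0 := by
      apply coeff_eq_zero_of_natDegree_lt
      have := natDegree_mul_le (p := F) (q := P)
      omega
    have hGQ : (G * Q).coeff (m + n - 1) = 0 := by
      apply coeff_eq_zero_of_natDegree_lt
      have := natDegree_mul_le (p := G) (q := Q)
      omega
    rw [coeff_add, coeff_add, hFP, hGQ, coeff_C, if_neg (by omega)] at h3
    simp at h3
  · intro D hDF hDG
    obtain ⟨P, Q, c, hP, hQ, hu⟩ := h X (by
      rw [degree_X]; exact_mod_cast (by omega : 1 < m + n))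
    have hD : D ∣ X - C c := by
      have : X - C c = F * P + G * Q := by rw [hu]; ring
      rw [this]
      exact dvd_add (dvd_mul_of_dvd_left hDF _) (dvd_mul_of_dvd_left hDG _)
    have := natDegree_le_of_dvd hD (X_sub_C_ne_zero c)
    simpa using this

/-- Field version: `GoodPair` iff the determinant or the Cramer vector of the Sylvester matrix does
not vanish. -/
lemma good_iff_cramer {m n : ℕ} (hm : 1 ≤ m) (hn : 1 ≤ n) (F G : K[X]) (hF : F.natDegree ≤ m)
    (hG : G.natDegree ≤ n) :
    GoodPair m n F G ↔ ((sylvester F G m n).det ≠ 0 ∨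
      (sylvester F G m n).cramer (Pi.single (⟨0, by omega⟩ : Fin (m + n)) 1) ≠ 0) := by
  rw [cramer_criterion]
  constructor
  · intro h u
    obtain ⟨P, Q, c, hP, hQ, hu⟩ := surj_of_good hm hn F G hF hG h (vecPoly u)
      (vecPoly_degree_lt u)
    refine ⟨Fin.addCases (fun j => Q.coeff j) (fun j => P.coeff j), c, ?_⟩
    ext i
    rw [Pi.add_apply, sylvester_mulVec F G hF hG]
    simp only [Fin.addCases_left, Fin.addCases_right]
    rw [vecPoly_of_degree_lt P hP, vecPoly_of_degree_lt Q hQ]
    have h1 : u i = (vecPoly u).coeff i := by rw [vecPoly_coeff]; simp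
    rw [h1, hu, coeff_add, coeff_C]
    congr 1
    by_cases hi : (i : ℕ) = 0
    · have : i = ⟨0, by omega⟩ := Fin.ext hi
      rw [this]; simp
    · have : i ≠ ⟨0, by omega⟩ := fun hh => hi (by rw [hh])
      rw [if_neg hi]; simp [Pi.single_apply, this]
  · intro h
    apply good_of_surj hm hn F G hF hG
    intro u hu
    obtain ⟨w, c, hw⟩ := h (fun i => u.coeff i)
    refine ⟨vecPoly (fun j : Fin n => w (Fin.natAdd m j)),
      vecPoly (fun j : Fin m => w (Fin.castAdd n j)), c, vecPoly_degree_lt _, vecPoly_degree_lt _,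
      ?_⟩
    ext i
    by_cases hi : i < m + n
    · have h1 := congrFun hw ⟨i, hi⟩
      simp only at h1
      rw [h1, Pi.add_apply, sylvester_mulVec F G hF hG, coeff_add _ (C c), coeff_C]
      congr 1
      by_cases hi0 : i = 0
      · subst hi0; simp
      · rw [if_neg hi0]
        simp [Pi.single_apply, Fin.ext_iff, hi0]
    · have hu0 : u.coeff i = 0 := (degree_lt_iff_coeff_zero _ _).mp hu i (by omega)
      rw [hu0, coeff_add, coeff_C, if_neg (by omega), add_zero, coeff_add]
      have e1 : (F * vecPoly (fun j : Fin n => w (Fin.natAdd m j))).coeff i = 0 := by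
        apply coeff_eq_zero_of_degree_lt
        refine lt_of_lt_of_le ?_ (by exact_mod_cast (by omega : m + n ≤ i) :
          ((m + n : ℕ) : WithBot ℕ) ≤ (i : WithBot ℕ))
        by_cases hF0 : F = 0
        · rw [hF0, zero_mul, degree_zero]; exact WithBot.bot_lt_coe _
        · rw [degree_mul]; push_cast
          exact WithBot.add_lt_add_of_le_of_lt (by rwa [Ne, degree_eq_bot])
            (degree_le_of_natDegree_le hF) (vecPoly_degree_lt _)
      have e2 : (G * vecPoly (fun j : Fin m => w (Fin.castAdd n j))).coeff i = 0 := by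
        apply coeff_eq_zero_of_degree_lt
        refine lt_of_lt_of_le ?_ (by exact_mod_cast (by omega : n + m ≤ i) :
          ((n + m : ℕ) : WithBot ℕ) ≤ (i : WithBot ℕ))
        by_cases hG0 : G = 0
        · rw [hG0, zero_mul, degree_zero]; exact WithBot.bot_lt_coe _
        · rw [degree_mul]; push_cast
          exact WithBot.add_lt_add_of_le_of_lt (by rwa [Ne, degree_eq_bot])
            (degree_le_of_natDegree_le hG) (vecPoly_degree_lt _)
      rw [e1, e2, add_zero]

end Good

section Integer

/-- Multiplying by the adjugate: integral solutions of `A w = N e` correspond to solutions of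
`N v = det A • w` where `v = A.cramer e`. -/
lemma solution_iff {N : Type*} [Fintype N] [DecidableEq N] (A : Matrix N N ℤ) (e w : N → ℤ)
    (hA : A.det ≠ 0) (k : ℤ) : A.mulVec w = k • e ↔ k • A.cramer e = A.det • w := by
  constructor
  · intro h
    have h1 : A.adjugate.mulVec (A.mulVec w) = k • A.cramer e := by
      rw [h, Matrix.mulVec_smul, Matrix.cramer_eq_adjugate_mulVec]
    rw [← h1, Matrix.mulVec_mulVec, Matrix.adjugate_mul, Matrix.smul_mulVec, Matrix.one_mulVec]
  · intro h
    have h1 : A.mulVec (k • A.cramer e) = A.det • (k • e) := by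
      rw [Matrix.mulVec_smul, Matrix.mulVec_cramer, smul_comm]
    rw [h, Matrix.mulVec_smul] at h1
    ext i
    have h2 := congrFun h1 i
    simp only [Pi.smul_apply, smul_eq_mul] at h2
    exact mul_left_cancel₀ hA h2

/-- The abstract arithmetic criterion. -/
lemma sInf_eq_natAbs_iff {N : Type*} [Fintype N] (v : N → ℤ) (R : ℤ) (hR : R ≠ 0) :
    sInf {k : ℕ | 0 < k ∧ ∃ w : N → ℤ, (k : ℤ) • v = R • w} = R.natAbs ↔
      ∀ l : ℕ, l.Prime → ¬ ((l : ℤ) ∣ R ∧ ∀ i, (l : ℤ) ∣ v i) := by
  have hRpos : 0 < R.natAbs := Int.natAbs_pos.mpr hR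
  have hmem : R.natAbs ∈ {k : ℕ | 0 < k ∧ ∃ w : N → ℤ, (k : ℤ) • v = R • w} := by
    refine ⟨hRpos, ?_⟩
    rcases Int.natAbs_eq R with h | h
    · exact ⟨v, by rw [← h]⟩
    · refine ⟨-v, ?_⟩
      have : ((R.natAbs : ℕ) : ℤ) = -R := by omega
      rw [this]; simp
  constructor
  · intro h l hl hcon
    obtain ⟨⟨R', hR'⟩, hv⟩ := hcon
    choose v' hv' using hv
    have hR'0 : R' ≠ 0 := by rintro rfl; simp at hR'; exact hR hR'
    have hk : R'.natAbs ∈ {k : ℕ | 0 < k ∧ ∃ w : N → ℤ, (k : ℤ) • v = R • w} := by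
      refine ⟨Int.natAbs_pos.mpr hR'0, ?_⟩
      rcases Int.natAbs_eq R' with h1 | h1
      · refine ⟨v', ?_⟩
        ext i
        simp only [Pi.smul_apply, smul_eq_mul]
        rw [← h1, hv' i, hR']; ring
      · refine ⟨-v', ?_⟩
        have h2 : ((R'.natAbs : ℕ) : ℤ) = -R' := by omega
        ext i
        simp only [Pi.smul_apply, smul_eq_mul, Pi.neg_apply]
        rw [h2, hv' i, hR']; ring
    have hle := Nat.sInf_le hk
    rw [h, hR', Int.natAbs_mul, Int.natAbs_natCast] at hle
    have h3 : 0 < R'.natAbs := Int.natAbs_pos.mpr hR'0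
    have h4 := hl.two_le
    nlinarith
  · intro h
    obtain ⟨hB0, w, hw⟩ := Nat.sInf_mem (s := {k : ℕ | 0 < k ∧ ∃ w : N → ℤ, (k : ℤ) • v = R • w})
      ⟨_, hmem⟩
    set B := sInf {k : ℕ | 0 < k ∧ ∃ w : N → ℤ, (k : ℤ) • v = R • w} with hB
    have hle : B ≤ R.natAbs := Nat.sInf_le hmem
    by_contra hne
    have hlt : B < R.natAbs := lt_of_le_of_ne hle hne
    set d := Nat.gcd B R.natAbs with hd
    have hdpos : 0 < d := Nat.gcd_pos_of_pos_left _ hB0
    have hdB : d ∣ B := Nat.gcd_dvd_left _ _
    have hdR : d ∣ R.natAbs := Nat.gcd_dvd_right _ _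
    obtain ⟨b, hb⟩ := hdB
    obtain ⟨r, hr⟩ := hdR
    have hcop : Nat.Coprime b r := by
      have h1 := Nat.coprime_div_gcd_div_gcd (m := B) (n := R.natAbs) hdpos
      rwa [← hd, hb, hr, Nat.mul_div_cancel_left _ hdpos, Nat.mul_div_cancel_left _ hdpos] at h1
    have hr1 : r ≠ 1 := by
      rintro rfl
      have : d ≤ B := Nat.le_of_dvd hB0 ⟨b, hb⟩
      omega
    obtain ⟨l, hl, hlr⟩ := Nat.exists_prime_and_dvd hr1
    apply h l hl
    constructor
    · have : l ∣ R.natAbs := hr ▸ Dvd.dvd.mul_left hlr d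
      exact Int.natCast_dvd.mpr this
    · intro i
      have h1 := congrFun hw i
      simp only [Pi.smul_apply, smul_eq_mul] at h1
      have hlb : Nat.Coprime l b := Nat.Coprime.coprime_dvd_left hlr hcop.symm
      -- b * v i divisible by r
      have h2 : (r : ℤ) ∣ (b : ℤ) * v i := by
        have hRr : (d : ℤ) * r ∣ R := by
          have : ((R.natAbs : ℕ) : ℤ) ∣ R := Int.natAbs_dvd.mpr dvd_rfl
          rw [hr] at this
          exact_mod_cast this
        have h3 : (d : ℤ) * r ∣ (d : ℤ) * (b * v i) := by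
          have : (d : ℤ) * (b * v i) = R * w i := by
            rw [← h1, hb]; push_cast; ring
          rw [this]
          exact Dvd.dvd.mul_right hRr _
        exact Int.dvd_of_mul_dvd_mul_left (by exact_mod_cast hdpos.ne') h3
      have h4 : (l : ℤ) ∣ (b : ℤ) * v i := dvd_trans (by exact_mod_cast hlr) h2
      have h5 : IsCoprime (l : ℤ) (b : ℤ) := Nat.isCoprime_iff_coprime.mpr hlb
      exact h5.dvd_of_dvd_mul_left h4

/-- The Bézout denominator in terms of integral solutions of the Sylvester system. -/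
lemma bezoutDenominator_set (f g : ℤ[X]) (hm : 1 ≤ f.natDegree) (hn : 1 ≤ g.natDegree) :
    {N : ℕ | 0 < N ∧ ∃ p q : ℚ[X], IsBezoutPair f g p q ∧
      HasIntCoeffs (C (N : ℚ) * p) ∧ HasIntCoeffs (C (N : ℚ) * q)} =
    {N : ℕ | 0 < N ∧ ∃ w : Fin (f.natDegree + g.natDegree) → ℤ,
      (sylvester f g f.natDegree g.natDegree).mulVec w =
        (N : ℤ) • (Pi.single (⟨0, by omega⟩ : Fin (f.natDegree + g.natDegree)) 1)} := by
  have hf0 : f ≠ 0 := by rintro rfl; simp at hm
  have hg0 : g ≠ 0 := by rintro rfl; simp at hn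
  have hfd : f.degree = (f.natDegree : ℕ) := degree_eq_natDegree hf0
  have hgd : g.degree = (g.natDegree : ℕ) := degree_eq_natDegree hg0
  have hinj : Function.Injective (Polynomial.map (Int.castRingHom ℚ)) :=
    Polynomial.map_injective _ Int.cast_injective
  ext N
  simp only [Set.mem_ofPred_eq]
  refine and_congr_right fun hN => ?_
  constructor
  · rintro ⟨p, q, ⟨hpq, hp, hq⟩, hP, hQ⟩
    obtain ⟨P, hP⟩ : ∃ P : ℤ[X], P.map (Int.castRingHom ℚ) = C (N : ℚ) * p := by
      choose a ha using hP
      have hl : (C (N : ℚ) * p) ∈ Polynomial.lifts (Int.castRingHom ℚ) := by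
        rw [Polynomial.lifts_iff_coeff_lifts]
        intro i
        exact ⟨a i, by rw [ha i]; simp⟩
      obtain ⟨P, hP⟩ := (Polynomial.mem_lifts _).mp hl
      exact ⟨P, hP⟩
    obtain ⟨Q, hQ⟩ : ∃ Q : ℤ[X], Q.map (Int.castRingHom ℚ) = C (N : ℚ) * q := by
      choose a ha using hQ
      have hl : (C (N : ℚ) * q) ∈ Polynomial.lifts (Int.castRingHom ℚ) := by
        rw [Polynomial.lifts_iff_coeff_lifts]
        intro i
        exact ⟨a i, by rw [ha i]; simp⟩
      obtain ⟨P, hP⟩ := (Polynomial.mem_lifts _).mp hl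
      exact ⟨P, hP⟩
    have hPd : P.degree < g.natDegree := by
      rw [← hgd, ← degree_map_eq_of_injective (f := Int.castRingHom ℚ) Int.cast_injective, hP]
      refine lt_of_le_of_lt ?_ hp
      exact (degree_C_mul (by exact_mod_cast hN.ne')).le
    have hQd : Q.degree < f.natDegree := by
      rw [← hfd, ← degree_map_eq_of_injective (f := Int.castRingHom ℚ) Int.cast_injective, hQ]
      refine lt_of_le_of_lt ?_ hq
      exact (degree_C_mul (by exact_mod_cast hN.ne')).le
    have heq : f * P + g * Q = C (N : ℤ) := by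
      apply hinj
      rw [Polynomial.map_add, Polynomial.map_mul, Polynomial.map_mul, hP, hQ, Polynomial.map_C]
      have : (C (N : ℚ) : ℚ[X]) * (p * f.map (Int.castRingHom ℚ) + q * g.map (Int.castRingHom ℚ))
        = C (N : ℚ) := by rw [hpq, mul_one]
      simp only [eq_intCast, Int.cast_natCast]
      linear_combination this
    refine ⟨Fin.addCases (fun j => Q.coeff j) (fun j => P.coeff j), ?_⟩
    ext i
    rw [sylvester_mulVec f g le_rfl le_rfl]
    simp only [Fin.addCases_left, Fin.addCases_right]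
    rw [vecPoly_of_degree_lt P hPd, vecPoly_of_degree_lt Q hQd, heq, coeff_C]
    by_cases hi : (i : ℕ) = 0
    · have : i = ⟨0, by omega⟩ := Fin.ext hi
      rw [this]; simp
    · have : i ≠ ⟨0, by omega⟩ := fun hh => hi (by rw [hh])
      rw [if_neg hi]; simp [this]
  · rintro ⟨w, hw⟩
    set P : ℤ[X] := vecPoly (fun j : Fin g.natDegree => w (Fin.natAdd f.natDegree j)) with hPdef
    set Q : ℤ[X] := vecPoly (fun j : Fin f.natDegree => w (Fin.castAdd g.natDegree j)) with hQdef
    have hPd : P.degree < g.natDegree := vecPoly_degree_lt _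
    have hQd : Q.degree < f.natDegree := vecPoly_degree_lt _
    have heq : f * P + g * Q = C (N : ℤ) := by
      ext i
      by_cases hi : i < f.natDegree + g.natDegree
      · have h1 := congrFun hw ⟨i, hi⟩
        rw [sylvester_mulVec f g le_rfl le_rfl] at h1
        simp only at h1
        rw [h1, coeff_C]
        by_cases hi0 : i = 0
        · subst hi0; simp
        · rw [if_neg hi0]
          simp [Fin.ext_iff, hi0, Pi.single_apply]
      · rw [coeff_C, if_neg (by omega)]
        apply coeff_eq_zero_of_degree_lt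
        refine lt_of_lt_of_le ?_ (by exact_mod_cast (by omega : f.natDegree + g.natDegree ≤ i) :
          ((f.natDegree + g.natDegree : ℕ) : WithBot ℕ) ≤ (i : WithBot ℕ))
        refine lt_of_le_of_lt (degree_add_le _ _) (max_lt ?_ ?_)
        · rw [degree_mul]; push_cast
          rw [hfd]
          exact WithBot.add_lt_add_of_le_of_lt (WithBot.natCast_ne_bot _) le_rfl hPd
        · rw [degree_mul, add_comm f.natDegree]; push_cast
          rw [hgd]
          exact WithBot.add_lt_add_of_le_of_lt (WithBot.natCast_ne_bot _) le_rfl hQd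
    have hN0 : (N : ℚ) ≠ 0 := by exact_mod_cast hN.ne'
    have hNN : (C (N : ℚ) : ℚ[X]) * C ((N : ℚ)⁻¹) = 1 := by
      rw [← C_mul, mul_inv_cancel₀ hN0, C_1]
    refine ⟨C ((N : ℚ)⁻¹) * P.map (Int.castRingHom ℚ), C ((N : ℚ)⁻¹) * Q.map (Int.castRingHom ℚ),
      ⟨?_, ?_, ?_⟩, ?_, ?_⟩
    · have h1 := congrArg (Polynomial.map (Int.castRingHom ℚ)) heq
      rw [Polynomial.map_add, Polynomial.map_mul, Polynomial.map_mul, Polynomial.map_C] at h1
      simp only [eq_intCast, Int.cast_natCast] at h1
      have : C ((N : ℚ)⁻¹) * P.map (Int.castRingHom ℚ) * f.map (Int.castRingHom ℚ) +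
          C ((N : ℚ)⁻¹) * Q.map (Int.castRingHom ℚ) * g.map (Int.castRingHom ℚ) =
          C ((N : ℚ)⁻¹) * (f.map (Int.castRingHom ℚ) * P.map (Int.castRingHom ℚ) +
            g.map (Int.castRingHom ℚ) * Q.map (Int.castRingHom ℚ)) := by ring
      rw [this, h1, mul_comm, hNN]
    · rw [hgd]
      rw [degree_C_mul (inv_ne_zero hN0)]
      rwa [degree_map_eq_of_injective (f := Int.castRingHom ℚ) Int.cast_injective]
    · rw [hfd]
      rw [degree_C_mul (inv_ne_zero hN0)]
      rwa [degree_map_eq_of_injective (f := Int.castRingHom ℚ) Int.cast_injective]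
    · rw [← mul_assoc, hNN, one_mul]
      intro i; exact ⟨P.coeff i, by simp⟩
    · rw [← mul_assoc, hNN, one_mul]
      intro i; exact ⟨Q.coeff i, by simp⟩

/-- **The criterion**: `B(f, g) = |Res(f, g)|` iff the reductions modulo every prime form a good
pair. -/
theorem bezout_eq_iff (f g : ℤ[X]) (hm : 1 ≤ f.natDegree) (hn : 1 ≤ g.natDegree)
    (hR : resultant f g ≠ 0) :
    bezoutDenominator f g = absResultant f g ↔
      ∀ l : ℕ, l.Prime → GoodPair f.natDegree g.natDegree (f.map (Int.castRingHom (ZMod l)))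
        (g.map (Int.castRingHom (ZMod l))) := by
  unfold bezoutDenominator absResultant
  rw [bezoutDenominator_set f g hm hn]
  have hset : {N : ℕ | 0 < N ∧ ∃ w : Fin (f.natDegree + g.natDegree) → ℤ,
      (sylvester f g f.natDegree g.natDegree).mulVec w =
        (N : ℤ) • (Pi.single (⟨0, by omega⟩ : Fin (f.natDegree + g.natDegree)) 1)} =
      {k : ℕ | 0 < k ∧ ∃ w : Fin (f.natDegree + g.natDegree) → ℤ,
        (k : ℤ) • (sylvester f g f.natDegree g.natDegree).cramer
          (Pi.single (⟨0, by omega⟩ : Fin (f.natDegree + g.natDegree)) 1) =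
          resultant f g • w} := by
    ext N
    simp only [Set.mem_ofPred_eq]
    refine and_congr_right fun _ => exists_congr fun w => ?_
    exact solution_iff _ _ _ hR _
  rw [hset, sInf_eq_natAbs_iff _ _ hR]
  refine forall_congr' fun l => forall_congr' fun hl => ?_
  have : Fact l.Prime := ⟨hl⟩
  rw [good_iff_cramer hm hn _ _ (natDegree_map_le) (natDegree_map_le), sylvester_map_map]
  rw [not_and_or]
  refine or_congr ?_ ?_
  · rw [← RingHom.map_det, Ne, eq_intCast, ZMod.intCast_zmod_eq_zero_iff_dvd]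
    rfl
  · rw [not_forall, Function.ne_iff]
    refine exists_congr fun i => ?_
    have h1 : ((Int.castRingHom (ZMod l)).mapMatrix (sylvester f g f.natDegree g.natDegree)).cramer
        (Pi.single (⟨0, by omega⟩ : Fin (f.natDegree + g.natDegree)) 1) i =
        Int.castRingHom (ZMod l) ((sylvester f g f.natDegree g.natDegree).cramer
          (Pi.single (⟨0, by omega⟩ : Fin (f.natDegree + g.natDegree)) 1) i) := by
      rw [Matrix.cramer_eq_adjugate_mulVec, Matrix.cramer_eq_adjugate_mulVec,
        RingHom.map_mulVec, ← RingHom.map_adjugate]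
      congr 1
      · ext j
        by_cases hj : j = ⟨0, by omega⟩
        · subst hj; simp
        · simp [Pi.single_apply, hj]
    rw [h1, Pi.zero_apply, Ne, eq_intCast, ZMod.intCast_zmod_eq_zero_iff_dvd]

end Integer

end Pool.Agent.MP32694d
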