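import Mathlib
import Pool.Agent.MP32694d.Criterion

open Polynomial

namespace Pool.Agent.MP32694d

section Count

variable (K : Type*) [Field K]

/-- Polynomials of degree `< k`, as a set. -/
def dLT (k : ℕ) : Set K[X] := {F | F.degree < (k : WithBot ℕ)}

/-- Pairs of formal degrees `(m, n)` whose formal leading coefficients are not both zero. -/
def LL (m n : ℕ) : Set (K[X] × K[X]) :=
  {p | p.1.degree ≤ (m : WithBot ℕ) ∧ p.2.degree ≤ (n : WithBot ℕ) ∧
    (p.1.degree = (m : WithBot ℕ) ∨ p.2.degree = (n : WithBot ℕ))}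

/-- Coprime pairs which have the right degrees after multiplication with something of degree `k`. -/
def QQ (k m n : ℕ) : Set (K[X] × K[X]) :=
  {p | IsCoprime p.1 p.2 ∧ p.1.degree + (k : WithBot ℕ) ≤ (m : WithBot ℕ) ∧
    p.2.degree + (k : WithBot ℕ) ≤ (n : WithBot ℕ) ∧
    (p.1.degree + (k : WithBot ℕ) = (m : WithBot ℕ) ∨
      p.2.degree + (k : WithBot ℕ) = (n : WithBot ℕ))}

/-- Monic polynomials of degree `k`. -/
def MM (k : ℕ) : Set K[X] := {D | D.Monic ∧ D.natDegree = k}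

/-- Pairs in `LL m n` with gcd of degree `k`. -/
def NN (k m n : ℕ) : Set (K[X] × K[X]) :=
  (fun x : K[X] × (K[X] × K[X]) => (x.1 * x.2.1, x.1 * x.2.2)) '' (MM K k ×ˢ QQ K k m n)

variable {K}

lemma QQ_succ (k m n : ℕ) : QQ K (k + 1) (m + 1) (n + 1) = QQ K k m n := by
  have key : ∀ (F : K[X]) (a : ℕ), (F.degree + ((k + 1 : ℕ) : WithBot ℕ) ≤ ((a + 1 : ℕ) : WithBot ℕ)
      ↔ F.degree + (k : WithBot ℕ) ≤ (a : WithBot ℕ)) ∧
      (F.degree + ((k + 1 : ℕ) : WithBot ℕ) = ((a + 1 : ℕ) : WithBot ℕ)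
      ↔ F.degree + (k : WithBot ℕ) = (a : WithBot ℕ)) := by
    intro F a
    rcases hF : F.degree with _ | d
    · constructor
      · constructor
        · intro _; exact bot_le
        · intro _; exact bot_le
      · constructor
        · intro h; exact absurd h.symm (WithBot.natCast_ne_bot _)
        · intro h; exact absurd h.symm (WithBot.natCast_ne_bot _)
    · constructor
      · constructor
        · intro h
          have h1 : ((d + (k + 1) : ℕ) : WithBot ℕ) ≤ ((a + 1 : ℕ) : WithBot ℕ) := h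
          have h2 : d + (k + 1) ≤ a + 1 := by exact_mod_cast h1
          have h3 : ((d + k : ℕ) : WithBot ℕ) ≤ ((a : ℕ) : WithBot ℕ) := by
            exact_mod_cast (by omega : d + k ≤ a)
          exact h3
        · intro h
          have h1 : ((d + k : ℕ) : WithBot ℕ) ≤ ((a : ℕ) : WithBot ℕ) := h
          have h2 : d + k ≤ a := by exact_mod_cast h1
          have h3 : ((d + (k + 1) : ℕ) : WithBot ℕ) ≤ ((a + 1 : ℕ) : WithBot ℕ) := by
            exact_mod_cast (by omega : d + (k + 1) ≤ a + 1)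
          exact h3
      · constructor
        · intro h
          have h1 : ((d + (k + 1) : ℕ) : WithBot ℕ) = ((a + 1 : ℕ) : WithBot ℕ) := h
          have h2 : d + (k + 1) = a + 1 := by exact_mod_cast h1
          have h3 : ((d + k : ℕ) : WithBot ℕ) = ((a : ℕ) : WithBot ℕ) := by
            exact_mod_cast (by omega : d + k = a)
          exact h3
        · intro h
          have h1 : ((d + k : ℕ) : WithBot ℕ) = ((a : ℕ) : WithBot ℕ) := h
          have h2 : d + k = a := by exact_mod_cast h1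
          have h3 : ((d + (k + 1) : ℕ) : WithBot ℕ) = ((a + 1 : ℕ) : WithBot ℕ) := by
            exact_mod_cast (by omega : d + (k + 1) = a + 1)
          exact h3
  ext p
  unfold QQ
  simp only [Set.mem_ofPred_eq]
  rw [(key p.1 m).1, (key p.1 m).2, (key p.2 n).1, (key p.2 n).2]

lemma monic_eq_of_mul_eq {D E F G F' G' : K[X]} (hD : D.Monic) (hE : E.Monic)
    (h : IsCoprime F G) (h' : IsCoprime F' G') (h1 : D * F = E * F') (h2 : D * G = E * G') :
    D = E ∧ F = F' ∧ G = G' := by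
  have hDE : D ∣ E := by
    obtain ⟨a, b, hab⟩ := h'
    have : E = D * (a * F + b * G) := by
      linear_combination (-E) * hab - a * h1 - b * h2
    exact ⟨_, this⟩
  have hED : E ∣ D := by
    obtain ⟨a, b, hab⟩ := h
    have : D = E * (a * F' + b * G') := by
      linear_combination (-D) * hab + a * h1 + b * h2
    exact ⟨_, this⟩
  have hDE' : D = E := eq_of_monic_of_associated hD hE (associated_of_dvd_dvd hDE hED)
  subst hDE'
  exact ⟨rfl, mul_left_cancel₀ hD.ne_zero h1, mul_left_cancel₀ hD.ne_zero h2⟩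

lemma NN_injOn (k m n : ℕ) :
    Set.InjOn (fun x : K[X] × (K[X] × K[X]) => (x.1 * x.2.1, x.1 * x.2.2))
      (MM K k ×ˢ QQ K k m n) := by
  rintro ⟨D, F, G⟩ ⟨hD, hQ⟩ ⟨E, F', G'⟩ ⟨hE, hQ'⟩ h
  simp only [Prod.mk.injEq] at h
  obtain ⟨h1, h2, h3⟩ := monic_eq_of_mul_eq hD.1 hE.1 hQ.1 hQ'.1 h.1 h.2
  simp only at h1 h2 h3
  subst h1 h2 h3
  rfl

lemma NN_subset_LL (k m n : ℕ) : NN K k m n ⊆ LL K m n := by
  rintro _ ⟨⟨D, F, G⟩, ⟨⟨hD, hDk⟩, hQ⟩, rfl⟩
  have hDdeg : D.degree = (k : WithBot ℕ) := by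
    rw [degree_eq_natDegree hD.ne_zero, hDk]
  obtain ⟨-, h1, h2, h3⟩ := hQ
  refine ⟨?_, ?_, ?_⟩
  · rw [degree_mul, hDdeg, add_comm]; exact h1
  · rw [degree_mul, hDdeg, add_comm]; exact h2
  · simp only [degree_mul, hDdeg]
    rcases h3 with h3 | h3
    · left; rw [add_comm]; exact h3
    · right; rw [add_comm]; exact h3

lemma NN_disjoint (m n : ℕ) {k l : ℕ} (hkl : k ≠ l) : Disjoint (NN K k m n) (NN K l m n) := by
  rw [Set.disjoint_left]
  rintro _ ⟨⟨D, F, G⟩, ⟨⟨hD, hDk⟩, hQ⟩, rfl⟩ ⟨⟨E, F', G'⟩, ⟨⟨hE, hEl⟩, hQ'⟩, h⟩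
  simp only [Prod.mk.injEq] at h
  obtain ⟨h1, -, -⟩ := monic_eq_of_mul_eq hE hD hQ'.1 hQ.1 h.1 h.2
  apply hkl
  rw [← hDk, ← hEl, h1]

/-- every nonzero pair is a monic polynomial times a coprime pair. -/
lemma exists_monic_mul (F G : K[X]) (h : F ≠ 0 ∨ G ≠ 0) :
    ∃ D F' G' : K[X], D.Monic ∧ IsCoprime F' G' ∧ F = D * F' ∧ G = D * G' := by
  classical
  set g := EuclideanDomain.gcd F G with hg
  have hg0 : g ≠ 0 := by
    intro h0
    rw [hg, EuclideanDomain.gcd_eq_zero_iff] at h0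
    rcases h with h | h
    · exact h h0.1
    · exact h h0.2
  obtain ⟨F1, hF1⟩ : g ∣ F := EuclideanDomain.gcd_dvd_left F G
  obtain ⟨G1, hG1⟩ : g ∣ G := EuclideanDomain.gcd_dvd_right F G
  have hlc : g.leadingCoeff ≠ 0 := leadingCoeff_ne_zero.mpr hg0
  have hCC : (C g.leadingCoeff : K[X]) * C (g.leadingCoeff⁻¹) = 1 := by
    rw [← C_mul, mul_inv_cancel₀ hlc, C_1]
  refine ⟨g * C (g.leadingCoeff⁻¹), C g.leadingCoeff * F1, C g.leadingCoeff * G1,
    monic_mul_leadingCoeff_inv hg0, ?_, ?_, ?_⟩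
  · have hbez : g = F * EuclideanDomain.gcdA F G + G * EuclideanDomain.gcdB F G := by
      rw [hg]; exact EuclideanDomain.gcd_eq_gcd_ab F G
    set x := EuclideanDomain.gcdA F G
    set y := EuclideanDomain.gcdB F G
    have h1 : F1 * x + G1 * y = 1 := by
      have h2 : g * (F1 * x + G1 * y) = g * 1 := by
        rw [mul_one]
        conv_rhs => rw [hbez]
        linear_combination (-x) * hF1 - y * hG1
      exact mul_left_cancel₀ hg0 h2
    refine ⟨C (g.leadingCoeff⁻¹) * x, C (g.leadingCoeff⁻¹) * y, ?_⟩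
    linear_combination h1 + (F1 * x + G1 * y) * hCC
  · rw [show g * C (g.leadingCoeff⁻¹) * (C g.leadingCoeff * F1) =
      (g * F1) * (C g.leadingCoeff * C (g.leadingCoeff⁻¹)) by ring, hCC, mul_one]
    exact hF1
  · rw [show g * C (g.leadingCoeff⁻¹) * (C g.leadingCoeff * G1) =
      (g * G1) * (C g.leadingCoeff * C (g.leadingCoeff⁻¹)) by ring, hCC, mul_one]
    exact hG1

lemma LL_ne_zero {m n : ℕ} {p : K[X] × K[X]} (hp : p ∈ LL K m n) : p.1 ≠ 0 ∨ p.2 ≠ 0 := by
  rcases hp.2.2 with h | h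
  · left; intro h0; rw [h0, degree_zero] at h; exact (WithBot.natCast_ne_bot _) h.symm
  · right; intro h0; rw [h0, degree_zero] at h; exact (WithBot.natCast_ne_bot _) h.symm

lemma mem_NN_of_eq {m n : ℕ} {p : K[X] × K[X]} (hp : p ∈ LL K m n) {D F' G' : K[X]}
    (hD : D.Monic) (hc : IsCoprime F' G') (h1 : p.1 = D * F') (h2 : p.2 = D * G') :
    p ∈ NN K D.natDegree m n := by
  have hDdeg : D.degree = (D.natDegree : WithBot ℕ) := degree_eq_natDegree hD.ne_zero
  refine ⟨(D, (F', G')), ⟨⟨hD, rfl⟩, hc, ?_, ?_, ?_⟩, ?_⟩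
  · have := hp.1; rw [h1, degree_mul, hDdeg, add_comm] at this; exact this
  · have := hp.2.1; rw [h2, degree_mul, hDdeg, add_comm] at this; exact this
  · have := hp.2.2; rw [h1, h2, degree_mul, degree_mul, hDdeg, add_comm, add_comm _ G'.degree]
      at this
    exact this
  · simp [← h1, ← h2]

lemma natDegree_le_of_mem_LL {m n : ℕ} {p : K[X] × K[X]} (hp : p ∈ LL K m n) {D : K[X]}
    (h1 : D ∣ p.1) (h2 : D ∣ p.2) : D.natDegree ≤ m + n := by
  rcases LL_ne_zero hp with h | h
  · have := natDegree_le_of_dvd h1 h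
    have h3 : p.1.natDegree ≤ m := natDegree_le_iff_degree_le.mpr hp.1
    omega
  · have := natDegree_le_of_dvd h2 h
    have h3 : p.2.natDegree ≤ n := natDegree_le_iff_degree_le.mpr hp.2.1
    omega

lemma LL_eq_iUnion (m n J : ℕ) (hJ : m + n < J) :
    LL K m n = ⋃ k ∈ (Finset.range J : Set ℕ), NN K k m n := by
  ext p
  simp only [Set.mem_iUnion, Finset.coe_range, Set.mem_Iio, exists_prop]
  constructor
  · intro hp
    obtain ⟨D, F', G', hD, hc, h1, h2⟩ := exists_monic_mul p.1 p.2 (LL_ne_zero hp)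
    refine ⟨D.natDegree, ?_, mem_NN_of_eq hp hD hc h1 h2⟩
    have := natDegree_le_of_mem_LL hp (D := D) ⟨F', h1⟩ ⟨G', h2⟩
    omega
  · rintro ⟨k, -, hk⟩
    exact NN_subset_LL k m n hk

variable [Finite K]

lemma dLT_finite (k : ℕ) : (dLT K k).Finite := by
  have : dLT K k = Set.range (vecPoly (R := K) (k := k)) := by
    ext F
    constructor
    · intro h; exact ⟨fun i => F.coeff i, vecPoly_of_degree_lt F h⟩
    · rintro ⟨a, rfl⟩; exact vecPoly_degree_lt a
  rw [this]
  exact Set.finite_range _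

lemma dLT_ncard (k : ℕ) : (dLT K k).ncard = Nat.card K ^ k := by
  have : dLT K k = Set.range (vecPoly (R := K) (k := k)) := by
    ext F
    constructor
    · intro h; exact ⟨fun i => F.coeff i, vecPoly_of_degree_lt F h⟩
    · rintro ⟨a, rfl⟩; exact vecPoly_degree_lt a
  rw [this, ← Set.image_univ, Set.ncard_image_of_injective _ vecPoly_injective, Set.ncard_univ,
    Nat.card_fun, Nat.card_fin]

lemma MM_ncard (k : ℕ) : (MM K k).ncard = Nat.card K ^ k := by
  have : MM K k = (fun F => X ^ k + F) '' dLT K k := by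
    ext D
    constructor
    · rintro ⟨hD, hk⟩
      refine ⟨D - X ^ k, ?_, by ring⟩
      have h1 : (D - X ^ k).degree < D.degree := by
        apply degree_sub_lt
        · rw [degree_X_pow, degree_eq_natDegree hD.ne_zero, hk]
        · exact hD.ne_zero
        · rw [hD.leadingCoeff]; simp
      rwa [degree_eq_natDegree hD.ne_zero, hk] at h1
    · rintro ⟨F, hF, rfl⟩
      have h1 : F.degree < (k : WithBot ℕ) := hF
      have h2 : (X ^ k + F).degree = (k : WithBot ℕ) := by
        rw [degree_add_eq_left_of_degree_lt (by rwa [degree_X_pow]), degree_X_pow]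
      exact ⟨monic_X_pow_add h1, natDegree_eq_of_degree_eq_some h2⟩
  rw [this, Set.ncard_image_of_injective _ (add_right_injective _), dLT_ncard]

lemma LL_eq (m n : ℕ) : LL K m n = (dLT K (m + 1) ×ˢ dLT K (n + 1)) \ (dLT K m ×ˢ dLT K n) := by
  have key : ∀ (F : K[X]) (a : ℕ), F.degree < ((a + 1 : ℕ) : WithBot ℕ) ↔ F.degree ≤ a := by
    intro F a
    rw [degree_lt_iff_coeff_zero, degree_le_iff_coeff_zero]
    constructor
    · intro h k hk; exact h k (by have : a < k := by exact_mod_cast hk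
                                  omega)
    · intro h k hk; exact h k (by exact_mod_cast (by omega : a < k))
  ext p
  simp only [LL, dLT, Set.mem_ofPred_eq, Set.mem_sdiff, Set.mem_prod, key]
  constructor
  · rintro ⟨h1, h2, h3⟩
    refine ⟨⟨h1, h2⟩, ?_⟩
    rintro ⟨h4, h5⟩
    rcases h3 with h3 | h3
    · exact h4.ne h3
    · exact h5.ne h3
  · rintro ⟨⟨h1, h2⟩, h3⟩
    refine ⟨h1, h2, ?_⟩
    by_contra hcon
    push Not at hcon
    exact h3 ⟨lt_of_le_of_ne h1 hcon.1, lt_of_le_of_ne h2 hcon.2⟩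

lemma LL_finite (m n : ℕ) : (LL K m n).Finite := by
  rw [LL_eq]
  exact ((dLT_finite _).prod (dLT_finite _)).subset Set.sdiff_subset

lemma LL_ncard (m n : ℕ) :
    (LL K m n).ncard + Nat.card K ^ (m + n) = Nat.card K ^ (m + n + 2) := by
  rw [LL_eq]
  have hsub : dLT K m ×ˢ dLT K n ⊆ dLT K (m + 1) ×ˢ dLT K (n + 1) := by
    apply Set.prod_mono
    · intro F hF
      exact lt_of_lt_of_le (show F.degree < (m : WithBot ℕ) from hF)
        (by exact_mod_cast (by omega : m ≤ m + 1))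
    · intro F hF
      exact lt_of_lt_of_le (show F.degree < (n : WithBot ℕ) from hF)
        (by exact_mod_cast (by omega : n ≤ n + 1))
  have h1 := Set.ncard_sdiff_add_ncard_of_subset hsub ((dLT_finite _).prod (dLT_finite _))
  rw [Set.ncard_prod, Set.ncard_prod, dLT_ncard, dLT_ncard, dLT_ncard, dLT_ncard] at h1
  rw [pow_add (Nat.card K) m n, h1]
  ring

lemma NN_finite (k m n : ℕ) : (NN K k m n).Finite := (LL_finite m n).subset (NN_subset_LL k m n)

lemma NN_ncard (k m n : ℕ) : (NN K k m n).ncard = Nat.card K ^ k * (QQ K k m n).ncard := by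
  unfold NN
  rw [(NN_injOn k m n).ncard_image, Set.ncard_prod, MM_ncard]

lemma LL_ncard_eq_sum (m n J : ℕ) (hJ : m + n < J) :
    (LL K m n).ncard = ∑ k ∈ Finset.range J, (NN K k m n).ncard := by
  rw [LL_eq_iUnion m n J hJ]
  rw [Set.Finite.ncard_biUnion (Finset.finite_toSet _) (fun i _ => NN_finite i m n)
    (fun i _ j _ hij => NN_disjoint m n hij)]
  exact finsum_mem_coe_finset _ _

/-- **The local count**. -/
lemma good_ncard (m n : ℕ) :
    (NN K 0 (m + 2) (n + 2)).ncard + (NN K 1 (m + 2) (n + 2)).ncard +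
      Nat.card K ^ 2 * (LL K m n).ncard = (LL K (m + 2) (n + 2)).ncard := by
  rw [LL_ncard_eq_sum (m + 2) (n + 2) (m + n + 5 + 2) (by omega),
    LL_ncard_eq_sum m n (m + n + 5) (by omega), Finset.sum_range_succ' _ (m + n + 5 + 1),
    Finset.sum_range_succ' _ (m + n + 5), Finset.mul_sum]
  have : ∀ k, (NN K (k + 1 + 1) (m + 2) (n + 2)).ncard = Nat.card K ^ 2 * (NN K k m n).ncard := by
    intro k
    rw [NN_ncard, NN_ncard, show m + 2 = m + 1 + 1 by ring, show n + 2 = n + 1 + 1 by ring,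
      QQ_succ, QQ_succ]
    ring
  simp only [this]
  ring

/-- The first polynomial attached to a coefficient vector. -/
noncomputable def fpoly {R : Type*} [CommRing R] {m n : ℕ} (x : Fin (m + 1) ⊕ Fin (n + 1) → R) :
    R[X] := vecPoly (fun i => x (Sum.inl i))

/-- The second polynomial attached to a coefficient vector. -/
noncomputable def gpoly {R : Type*} [CommRing R] {m n : ℕ} (x : Fin (m + 1) ⊕ Fin (n + 1) → R) :
    R[X] := vecPoly (fun i => x (Sum.inr i))

/-- Coefficient vectors of good pairs. -/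
def goodSet (R : Type*) [CommRing R] (m n : ℕ) : Set (Fin (m + 1) ⊕ Fin (n + 1) → R) :=
  {x | GoodPair m n (fpoly x) (gpoly x)}

omit [Finite K] in
lemma good_iff_NN {m n : ℕ} (F G : K[X]) (hF : F.degree ≤ m) (hG : G.degree ≤ n) :
    GoodPair m n F G ↔ (F, G) ∈ NN K 0 m n ∪ NN K 1 m n := by
  constructor
  · intro h
    have hL : (F, G) ∈ LL K m n := by
      refine ⟨hF, hG, ?_⟩
      rcases h.1 with h1 | h1
      · left; exact le_antisymm hF (le_degree_of_ne_zero h1)
      · right; exact le_antisymm hG (le_degree_of_ne_zero h1)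
    obtain ⟨D, F', G', hD, hc, h1, h2⟩ := exists_monic_mul F G (LL_ne_zero hL)
    have h3 := mem_NN_of_eq hL hD hc h1 h2
    have h4 := h.2 D ⟨_, h1⟩ ⟨_, h2⟩
    interval_cases hDd : D.natDegree
    · left; exact h3
    · right; exact h3
  · intro h
    have hk : ∃ k, k ≤ 1 ∧ (F, G) ∈ NN K k m n := by
      rcases h with h | h
      · exact ⟨0, by omega, h⟩
      · exact ⟨1, le_rfl, h⟩
    obtain ⟨k, hk1, hk⟩ := hk
    have hL := NN_subset_LL k m n hk
    obtain ⟨⟨D, F', G'⟩, ⟨⟨hD, hDk⟩, hQ⟩, heq⟩ := hk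
    simp only [Prod.mk.injEq] at heq hDk hD
    constructor
    · rcases hL.2.2 with h1 | h1
      · left
        have : F.natDegree = m := natDegree_eq_of_degree_eq_some h1
        rw [← this]
        exact leadingCoeff_ne_zero.mpr (fun h0 => by simp [h0] at h1)
      · right
        have : G.natDegree = n := natDegree_eq_of_degree_eq_some h1
        rw [← this]
        exact leadingCoeff_ne_zero.mpr (fun h0 => by simp [h0] at h1)
    · intro E hE1 hE2
      obtain ⟨a, b, hab⟩ := hQ.1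
      simp only at hab
      have hED : E ∣ D := by
        have h1 : D = a * F + b * G := by
          rw [← heq.1, ← heq.2]; linear_combination (-D) * hab
        rw [h1]
        exact dvd_add (Dvd.dvd.mul_left hE1 _) (Dvd.dvd.mul_left hE2 _)
      have := natDegree_le_of_dvd hED hD.ne_zero
      omega

omit [Finite K] in
lemma goodSet_image (m n : ℕ) :
    (fun x : Fin (m + 1) ⊕ Fin (n + 1) → K => (fpoly x, gpoly x)) '' goodSet K m n =
      NN K 0 m n ∪ NN K 1 m n := by
  have key : ∀ {k : ℕ} (a : Fin (k + 1) → K), (vecPoly a).degree ≤ k := by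
    intro k a
    have := vecPoly_degree_lt a
    rw [degree_lt_iff_coeff_zero] at this
    rw [degree_le_iff_coeff_zero]
    intro j hj
    exact this j (by have : k < j := by exact_mod_cast hj
                     omega)
  ext ⟨F, G⟩
  constructor
  · rintro ⟨x, hx, h⟩
    simp only [Prod.mk.injEq] at h
    rw [← h.1, ← h.2]
    exact (good_iff_NN _ _ (key _) (key _)).mp hx
  · intro h
    have hL : (F, G) ∈ LL K m n := by
      rcases h with h | h
      · exact NN_subset_LL _ _ _ h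
      · exact NN_subset_LL _ _ _ h
    have hF : F.degree < ((m + 1 : ℕ) : WithBot ℕ) :=
      lt_of_le_of_lt hL.1 (by exact_mod_cast Nat.lt_succ_self m)
    have hG : G.degree < ((n + 1 : ℕ) : WithBot ℕ) :=
      lt_of_le_of_lt hL.2.1 (by exact_mod_cast Nat.lt_succ_self n)
    refine ⟨Sum.elim (fun i => F.coeff i) (fun i => G.coeff i), ?_, ?_⟩
    · show GoodPair m n (vecPoly _) (vecPoly _)
      simp only [Sum.elim_inl, Sum.elim_inr]
      rw [vecPoly_of_degree_lt F hF, vecPoly_of_degree_lt G hG]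
      exact (good_iff_NN _ _ hL.1 hL.2.1).mpr h
    · show (vecPoly _, vecPoly _) = _
      simp only [Sum.elim_inl, Sum.elim_inr]
      rw [vecPoly_of_degree_lt F hF, vecPoly_of_degree_lt G hG]

lemma goodSet_ncard (m n : ℕ) :
    (goodSet K m n).ncard = (NN K 0 m n).ncard + (NN K 1 m n).ncard := by
  rw [← Set.ncard_union_eq (NN_disjoint m n (by norm_num)) (NN_finite _ _ _) (NN_finite _ _ _),
    ← goodSet_image, Set.ncard_image_of_injective]
  intro x y hxy
  simp only [Prod.mk.injEq] at hxy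
  have h1 := vecPoly_injective hxy.1
  have h2 := vecPoly_injective hxy.2
  ext i
  rcases i with i | i
  · exact congrFun h1 i
  · exact congrFun h2 i

/-- The local density is `(1 - 1/q^2)^2`. -/
lemma goodSet_density {m n : ℕ} (hm : 2 ≤ m) (hn : 2 ≤ n) :
    ((goodSet K m n).ncard : ℝ) =
      (Nat.card K : ℝ) ^ (m + n + 2) * (1 - 1 / (Nat.card K : ℝ) ^ 2) ^ 2 := by
  obtain ⟨m', rfl⟩ := Nat.exists_eq_add_of_le' hm
  obtain ⟨n', rfl⟩ := Nat.exists_eq_add_of_le' hn
  have h1 := good_ncard (K := K) m' n'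
  have h2 := LL_ncard (K := K) m' n'
  have h3 := LL_ncard (K := K) (m' + 2) (n' + 2)
  rw [← goodSet_ncard] at h1
  have hq : (Nat.card K : ℝ) ≠ 0 := by
    have : 0 < Nat.card K := Nat.card_pos
    exact_mod_cast this.ne'
  have h1' : ((goodSet K (m' + 2) (n' + 2)).ncard : ℝ) +
      (Nat.card K : ℝ) ^ 2 * ((LL K m' n').ncard : ℝ) =
      ((LL K (m' + 2) (n' + 2)).ncard : ℝ) := by exact_mod_cast h1
  have h2' : ((LL K m' n').ncard : ℝ) + (Nat.card K : ℝ) ^ (m' + n') =
      (Nat.card K : ℝ) ^ (m' + n' + 2) := by exact_mod_cast h2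
  have h3' : ((LL K (m' + 2) (n' + 2)).ncard : ℝ) + (Nat.card K : ℝ) ^ (m' + 2 + (n' + 2)) =
      (Nat.card K : ℝ) ^ (m' + 2 + (n' + 2) + 2) := by exact_mod_cast h3
  have h4 : ((goodSet K (m' + 2) (n' + 2)).ncard : ℝ) =
      (Nat.card K : ℝ) ^ (m' + 2 + (n' + 2) + 2) - (Nat.card K : ℝ) ^ (m' + 2 + (n' + 2)) -
      (Nat.card K : ℝ) ^ 2 * ((Nat.card K : ℝ) ^ (m' + n' + 2) - (Nat.card K : ℝ) ^ (m' + n')) := by
    linear_combination h1' + h3' - (Nat.card K : ℝ) ^ 2 * h2'
  rw [h4]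
  field_simp
  ring

/-- The bad residue vectors number at most `2 q^(m+n)`. -/
lemma badSet_ncard_le {m n : ℕ} (hm : 2 ≤ m) (hn : 2 ≤ n) :
    (((goodSet K m n)ᶜ).ncard : ℝ) ≤ 2 * (Nat.card K : ℝ) ^ (m + n) := by
  have h1 := goodSet_density (K := K) hm hn
  have h2 := Set.ncard_add_ncard_compl (goodSet K m n)
  have h3 : Nat.card (Fin (m + 1) ⊕ Fin (n + 1) → K) = Nat.card K ^ (m + n + 2) := by
    rw [Nat.card_fun, Nat.card_sum, Nat.card_fin, Nat.card_fin]
    congr 1; ring
  rw [h3] at h2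
  have h2' : ((goodSet K m n).ncard : ℝ) + (((goodSet K m n)ᶜ).ncard : ℝ) =
      (Nat.card K : ℝ) ^ (m + n + 2) := by exact_mod_cast h2
  have hq : (Nat.card K : ℝ) ≠ 0 := by
    have : 0 < Nat.card K := Nat.card_pos
    exact_mod_cast this.ne'
  have hq0 : (0 : ℝ) < (Nat.card K : ℝ) := by
    have : 0 < Nat.card K := Nat.card_pos
    exact_mod_cast this
  have h4 : (((goodSet K m n)ᶜ).ncard : ℝ) =
      (Nat.card K : ℝ) ^ (m + n) * (2 - 1 / (Nat.card K : ℝ) ^ 2) := by
    have : (((goodSet K m n)ᶜ).ncard : ℝ) = (Nat.card K : ℝ) ^ (m + n + 2) -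
      (Nat.card K : ℝ) ^ (m + n + 2) * (1 - 1 / (Nat.card K : ℝ) ^ 2) ^ 2 := by
        rw [← h1]; linarith
    rw [this]
    field_simp
    ring
  rw [h4]
  have h5 : (0 : ℝ) ≤ 1 / (Nat.card K : ℝ) ^ 2 := by positivity
  have h6 : (0 : ℝ) ≤ (Nat.card K : ℝ) ^ (m + n) := by positivity
  nlinarith

end Count

end Pool.Agent.MP32694d
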