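import Mathlib
import Pool.Agent.MP32694d.LocalCount

open Polynomial Filter Topology

namespace Pool.Agent.MP32694d

section Interval

/-- Number of integers in an interval in a fixed residue class. -/
lemma card_Icc_residue (Q : ℕ) [NeZero Q] (a b : ℤ) (hab : a ≤ b + 1) (r : ZMod Q) :
    |(((Finset.Icc a b).filter (fun x : ℤ => (x : ZMod Q) = r)).card : ℝ) -
      ((b + 1 - a : ℤ) : ℝ) / Q| ≤ 1 := by
  have hQ : 0 < Q := Nat.pos_of_ne_zero (NeZero.ne Q)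
  have hQ' : (0 : ℤ) < Q := by exact_mod_cast hQ
  obtain ⟨v, hv⟩ : ∃ v : ℤ, (v : ZMod Q) = r := ZMod.intCast_surjective r
  have hfil : (Finset.Icc a b).filter (fun x : ℤ => (x : ZMod Q) = r) =
      (Finset.Ico a (b + 1)).filter (fun x : ℤ => x ≡ v [ZMOD Q]) := by
    ext x
    simp only [Finset.mem_filter, Finset.mem_Icc, Finset.mem_Ico]
    rw [← hv, ZMod.intCast_eq_intCast_iff]
    constructor
    · rintro ⟨⟨h1, h2⟩, h3⟩; exact ⟨⟨h1, by omega⟩, h3⟩
    · rintro ⟨⟨h1, h2⟩, h3⟩; exact ⟨⟨h1, by omega⟩, h3⟩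
  rw [hfil]
  have h1 := Int.Ico_filter_modEq_card a (b + 1) hQ' v
  set c := ((Finset.Ico a (b + 1)).filter (fun x : ℤ => x ≡ v [ZMOD Q])).card with hc
  have hQr : (0 : ℝ) < (Q : ℝ) := by exact_mod_cast hQ
  have hceil : ∀ z : ℤ, ((⌈((z : ℚ) - (v : ℚ)) / ((Q : ℤ) : ℚ)⌉ : ℤ) : ℝ) < ((z : ℝ) - v) / Q + 1 ∧
      ((z : ℝ) - v) / Q ≤ ((⌈((z : ℚ) - (v : ℚ)) / ((Q : ℤ) : ℚ)⌉ : ℤ) : ℝ) := by
    intro z
    constructor
    · have := Int.ceil_lt_add_one (((z : ℚ) - (v : ℚ)) / ((Q : ℤ) : ℚ))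
      exact_mod_cast this
    · have := Int.le_ceil (((z : ℚ) - (v : ℚ)) / ((Q : ℤ) : ℚ))
      exact_mod_cast this
  have hA := hceil (b + 1)
  have hB := hceil a
  have hsub : (((b + 1 : ℤ) : ℝ) - v) / Q - ((a : ℝ) - v) / Q = ((b + 1 - a : ℤ) : ℝ) / Q := by
    push_cast; field_simp; ring
  have hnn : (0 : ℝ) ≤ ((b + 1 - a : ℤ) : ℝ) / Q := by
    apply div_nonneg _ hQr.le
    exact_mod_cast (by omega : (0 : ℤ) ≤ b + 1 - a)
  have hcr : (c : ℝ) = max (((⌈(((b + 1 : ℤ) : ℚ) - (v : ℚ)) / ((Q : ℤ) : ℚ)⌉ : ℤ) : ℝ) -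
      ((⌈((a : ℚ) - (v : ℚ)) / ((Q : ℤ) : ℚ)⌉ : ℤ) : ℝ)) 0 := by
    have : ((c : ℤ) : ℝ) = ((max (⌈(((b + 1 : ℤ) : ℚ) - (v : ℚ)) / ((Q : ℤ) : ℚ)⌉ -
      ⌈((a : ℚ) - (v : ℚ)) / ((Q : ℤ) : ℚ)⌉) 0 : ℤ) : ℝ) := by
        rw [← h1]
    push_cast at this
    push_cast
    exact this
  rw [hcr, ← hsub, abs_le]
  rw [← hsub] at hnn
  constructor
  · have := le_max_left (((⌈(((b + 1 : ℤ) : ℚ) - (v : ℚ)) / ((Q : ℤ) : ℚ)⌉ : ℤ) : ℝ) -
      ((⌈((a : ℚ) - (v : ℚ)) / ((Q : ℤ) : ℚ)⌉ : ℤ) : ℝ)) 0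
    linarith [hA.2, hB.1]
  · rw [sub_le_iff_le_add]
    apply max_le
    · linarith [hA.1, hB.2]
    · linarith

lemma card_Icc_residue_le (Q : ℕ) [NeZero Q] (a b : ℤ) (hab : a ≤ b + 1) (r : ZMod Q) :
    (((Finset.Icc a b).filter (fun x : ℤ => (x : ZMod Q) = r)).card : ℝ) ≤
      ((b + 1 - a : ℤ) : ℝ) / Q + 1 := by
  have := (abs_le.mp (card_Icc_residue Q a b hab r)).2
  linarith

/-- The proportion tends to `1 / Q`. -/
lemma tendsto_residue (Q : ℕ) [NeZero Q] (a b : ℕ → ℤ) (hab : ∀ H, a H ≤ b H + 1)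
    (hlim : Tendsto (fun H => ((b H + 1 - a H : ℤ) : ℝ)) atTop atTop) (r : ZMod Q) :
    Tendsto (fun H => (((Finset.Icc (a H) (b H)).filter (fun x : ℤ => (x : ZMod Q) = r)).card : ℝ) /
      ((Finset.Icc (a H) (b H)).card : ℝ)) atTop (𝓝 (1 / (Q : ℝ))) := by
  have hcard : ∀ H, ((Finset.Icc (a H) (b H)).card : ℝ) = ((b H + 1 - a H : ℤ) : ℝ) := by
    intro H
    rw [Int.card_Icc]
    have h1 : (((b H + 1 - a H).toNat : ℕ) : ℤ) = b H + 1 - a H :=
      Int.toNat_of_nonneg (by have := hab H; omega)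
    have h2 : (((b H + 1 - a H).toNat : ℕ) : ℝ) = (((((b H + 1 - a H).toNat : ℕ) : ℤ)) : ℝ) :=
      (Int.cast_natCast _).symm
    rw [h2, h1]
  rw [tendsto_iff_norm_sub_tendsto_zero]
  have hinv : Tendsto (fun H => 1 / ((b H + 1 - a H : ℤ) : ℝ)) atTop (𝓝 0) := by
    have h := hlim.inv_tendsto_atTop
    refine h.congr fun H => ?_
    rw [Pi.inv_apply, one_div]
  refine squeeze_zero' (Eventually.of_forall fun _ => norm_nonneg _) ?_ hinv
  filter_upwards [hlim.eventually_gt_atTop 0] with H hH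
  rw [hcard H, Real.norm_eq_abs]
  have h1 := card_Icc_residue Q (a H) (b H) (hab H) r
  have h2 : (((Finset.Icc (a H) (b H)).filter (fun x : ℤ => (x : ZMod Q) = r)).card : ℝ) /
      ((b H + 1 - a H : ℤ) : ℝ) - 1 / Q =
      ((((Finset.Icc (a H) (b H)).filter (fun x : ℤ => (x : ZMod Q) = r)).card : ℝ) -
      ((b H + 1 - a H : ℤ) : ℝ) / Q) / ((b H + 1 - a H : ℤ) : ℝ) := by
    field_simp
  rw [h2, abs_div, abs_of_pos hH]
  exact div_le_div_of_nonneg_right h1 hH.le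

end Interval

section Box

variable {ι : Type*} [Fintype ι] [DecidableEq ι]

/-- An integer box. -/
noncomputable def ibox (a b : ι → ℤ) : Finset (ι → ℤ) := Fintype.piFinset (fun i => Finset.Icc (a i) (b i))

lemma ibox_filter_residue (Q : ℕ) (a b : ι → ℤ) (r : ι → ZMod Q) :
    (ibox a b).filter (fun x => (fun i => (x i : ZMod Q)) = r) =
      Fintype.piFinset (fun i => (Finset.Icc (a i) (b i)).filter (fun y : ℤ => (y : ZMod Q) = r i)) := by
  ext x
  simp only [ibox, Finset.mem_filter, Fintype.mem_piFinset, funext_iff]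
  constructor
  · rintro ⟨h1, h2⟩ i; exact ⟨h1 i, h2 i⟩
  · intro h; exact ⟨fun i => (h i).1, fun i => (h i).2⟩

lemma ibox_filter_mem (Q : ℕ) (a b : ι → ℤ) (A : Finset (ι → ZMod Q)) :
    ((ibox a b).filter (fun x => (fun i => (x i : ZMod Q)) ∈ A)).card =
      ∑ r ∈ A, ∏ i, ((Finset.Icc (a i) (b i)).filter (fun y : ℤ => (y : ZMod Q) = r i)).card := by
  classical
  have h1 : ∀ r, ((ibox a b).filter (fun x => (fun i => (x i : ZMod Q)) = r)).card =
      ∏ i, ((Finset.Icc (a i) (b i)).filter (fun y : ℤ => (y : ZMod Q) = r i)).card := by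
    intro r
    rw [ibox_filter_residue, Fintype.card_piFinset]
  rw [← Finset.sum_congr rfl (fun r _ => h1 r)]
  rw [Finset.card_eq_sum_card_fiberwise (f := fun x : ι → ℤ => (fun i => (x i : ZMod Q))) (t := A)]
  · refine Finset.sum_congr rfl fun r hr => ?_
    congr 1
    ext x
    simp only [Finset.mem_filter]
    constructor
    · rintro ⟨⟨h1, h2⟩, h3⟩; exact ⟨h1, h3⟩
    · rintro ⟨h1, h3⟩; exact ⟨⟨h1, by rw [h3]; exact hr⟩, h3⟩
  · intro x hx
    exact (Finset.mem_filter.mp hx).2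

lemma tendsto_box_density (Q : ℕ) [NeZero Q] (a b : ℕ → ι → ℤ) (hab : ∀ H i, a H i ≤ b H i + 1)
    (hlim : ∀ i, Tendsto (fun H => ((b H i + 1 - a H i : ℤ) : ℝ)) atTop atTop)
    (A : Finset (ι → ZMod Q)) :
    Tendsto (fun H => (((ibox (a H) (b H)).filter (fun x => (fun i => (x i : ZMod Q)) ∈ A)).card : ℝ) /
      ((ibox (a H) (b H)).card : ℝ)) atTop
      (𝓝 ((A.card : ℝ) / (Q : ℝ) ^ (Fintype.card ι))) := by
  have h1 : ∀ H, (((ibox (a H) (b H)).filter (fun x => (fun i => (x i : ZMod Q)) ∈ A)).card : ℝ) /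
      ((ibox (a H) (b H)).card : ℝ) = ∑ r ∈ A, ∏ i,
        ((((Finset.Icc (a H i) (b H i)).filter (fun y : ℤ => (y : ZMod Q) = r i)).card : ℝ) /
        ((Finset.Icc (a H i) (b H i)).card : ℝ)) := by
    intro H
    rw [ibox_filter_mem]
    have h2 : ((ibox (a H) (b H)).card : ℝ) = ∏ i, ((Finset.Icc (a H i) (b H i)).card : ℝ) := by
      unfold ibox
      rw [Fintype.card_piFinset]
      push_cast
      rfl
    rw [h2]
    push_cast
    rw [Finset.sum_div]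
    refine Finset.sum_congr rfl fun r _ => ?_
    rw [Finset.prod_div_distrib]
  simp_rw [h1]
  have h3 : (A.card : ℝ) / (Q : ℝ) ^ (Fintype.card ι) = ∑ r ∈ A, ∏ _i : ι, (1 / (Q : ℝ)) := by
    rw [Finset.sum_const, Finset.prod_const, Finset.card_univ]
    simp
    ring
  rw [h3]
  apply tendsto_finsetSum
  intro r _
  apply tendsto_finsetProd
  intro i _
  exact tendsto_residue Q (fun H => a H i) (fun H => b H i) (fun H => hab H i) (hlim i) (r i)

end Box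

section CRT

/-- Chinese remainder: simultaneous conditions modulo the primes of a finite set. -/
lemma crt_density {ι : Type*} [Fintype ι] [DecidableEq ι] (P : Finset ℕ) (hP : ∀ p ∈ P, p.Prime)
    (G : ∀ p : ℕ, Set (ι → ZMod p)) :
    ∃ A : Finset (ι → ZMod (∏ p ∈ P, p)),
      (∀ x : ι → ℤ, (fun i => (x i : ZMod (∏ p ∈ P, p))) ∈ A ↔
        ∀ p ∈ P, (fun i => (x i : ZMod p)) ∈ G p) ∧
      (A.card : ℝ) / ((∏ p ∈ P, p : ℕ) : ℝ) ^ (Fintype.card ι) =
        ∏ p ∈ P, (((G p).ncard : ℝ) / (p : ℝ) ^ (Fintype.card ι)) := by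
  classical
  have hpos : ∀ p ∈ P, NeZero p := fun p hp => ⟨(hP p hp).ne_zero⟩
  have hprod : (∏ p ∈ P, p) = ∏ p : P, (p : ℕ) := (Finset.prod_coe_sort P (fun p => p)).symm
  rw [hprod]
  have hcop : Pairwise (Function.onFun Nat.Coprime (fun p : P => (p : ℕ))) := by
    intro p q hpq
    exact (Nat.coprime_primes (hP p p.2) (hP q q.2)).mpr (fun h => hpq (Subtype.ext h))
  set Q := ∏ p : P, (p : ℕ) with hQ
  have hQ0 : Q ≠ 0 := Finset.prod_ne_zero_iff.mpr fun p _ => (hP p p.2).ne_zero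
  have : NeZero Q := ⟨hQ0⟩
  have : ∀ p : P, NeZero (p : ℕ) := fun p => hpos p p.2
  let e : ZMod Q ≃+* (∀ p : P, ZMod (p : ℕ)) := ZMod.prodEquivPi (fun p : P => (p : ℕ)) hcop
  let E : (ι → ZMod Q) ≃ (∀ p : P, ι → ZMod (p : ℕ)) :=
    (Equiv.piCongrRight (fun _ => e.toEquiv)).trans (Equiv.piComm _)
  have hE : ∀ (x : ι → ℤ) (p : P), E (fun i => (x i : ZMod Q)) p = fun i => (x i : ZMod (p : ℕ)) := by
    intro x p
    ext i
    have : E (fun i => (x i : ZMod Q)) p i = e (x i : ZMod Q) p := rfl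
    rw [this, map_intCast]
    simp
  let B : Set (∀ p : P, ι → ZMod (p : ℕ)) := Set.univ.pi (fun p => G p)
  have hfin : (E ⁻¹' B).Finite := Set.toFinite _
  refine ⟨hfin.toFinset, ?_, ?_⟩
  · intro x
    rw [Set.Finite.mem_toFinset, Set.mem_preimage, Set.mem_univ_pi]
    constructor
    · intro h p hp
      have := h ⟨p, hp⟩
      rwa [hE] at this
    · intro h p
      rw [hE]
      exact h p p.2
  · have h1 : (hfin.toFinset.card : ℝ) = ∏ p : P, ((G p).ncard : ℝ) := by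
      rw [← Set.ncard_eq_toFinset_card _ hfin]
      have h2 : (E ⁻¹' B).ncard = B.ncard := by
        rw [← Set.ncard_image_of_injective _ E.injective, Equiv.image_preimage]
      rw [h2]
      have h3 : B.ncard = ∏ p : P, (G p).ncard := by
        have : B.ncard = Nat.card (∀ p : P, G p) := by
          rw [← Nat.card_coe_set_eq]
          exact Nat.card_congr (Equiv.Set.univPi (fun p : P => G p))
        rw [this, Nat.card_pi]
        rfl
      rw [h3]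
      push_cast
      rfl
    rw [h1]
    rw [Finset.prod_div_distrib, Finset.prod_pow]
    congr 1
    · exact Finset.prod_coe_sort P (fun p => ((G p).ncard : ℝ))
    · rw [hQ]
      push_cast
      rw [← Finset.prod_coe_sort P (fun p => (p : ℝ))]

end CRT

end Pool.Agent.MP32694d
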