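import Mathlib
import Pool.Agent.MP32694d.Density

open Polynomial Filter Topology

namespace Pool.Agent.MP32694d

section Poly

variable {R S : Type*} [CommRing R] [CommRing S] {m n : ℕ}

lemma vecPoly_map {k : ℕ} (φ : R →+* S) (a : Fin k → R) :
    (vecPoly a).map φ = vecPoly (fun i => φ (a i)) := by
  ext j
  rw [coeff_map, vecPoly_coeff, vecPoly_coeff]
  split_ifs <;> simp

lemma vecPoly_natDegree_le {k : ℕ} (a : Fin (k + 1) → R) : (vecPoly a).natDegree ≤ k := by
  rw [natDegree_le_iff_coeff_eq_zero]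
  intro N hN
  rw [vecPoly_coeff, dif_neg (by omega)]

lemma fpoly_map (φ : R →+* S) (x : Fin (m + 1) ⊕ Fin (n + 1) → R) :
    (fpoly x).map φ = fpoly (fun i => φ (x i)) := vecPoly_map φ _

lemma gpoly_map (φ : R →+* S) (x : Fin (m + 1) ⊕ Fin (n + 1) → R) :
    (gpoly x).map φ = gpoly (fun i => φ (x i)) := vecPoly_map φ _

/-- The polynomial `g` with the constant coefficient removed. -/
noncomputable def gzero (x : Fin (m + 1) ⊕ Fin (n + 1) → R) : R[X] :=
  gpoly (Function.update x (Sum.inr 0) 0)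

lemma gzero_map (φ : R →+* S) (x : Fin (m + 1) ⊕ Fin (n + 1) → R) :
    (gzero x).map φ = gzero (fun i => φ (x i)) := by
  unfold gzero
  rw [gpoly_map]
  congr 1
  ext i
  by_cases hi : i = Sum.inr 0
  · subst hi; simp
  · simp [Function.update_of_ne hi]

lemma gpoly_eq_gzero_add (x : Fin (m + 1) ⊕ Fin (n + 1) → R) :
    gpoly x = gzero x + C (x (Sum.inr 0)) := by
  unfold gzero gpoly
  ext j
  rw [coeff_add, vecPoly_coeff, vecPoly_coeff, coeff_C]
  by_cases hj : j < n + 1
  · rw [dif_pos hj, dif_pos hj]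
    by_cases hj0 : j = 0
    · subst hj0
      simp
    · have : (Sum.inr ⟨j, hj⟩ : Fin (m + 1) ⊕ Fin (n + 1)) ≠ Sum.inr 0 := by
        intro h
        have := Sum.inr_injective h
        exact hj0 (congrArg Fin.val this)
      rw [Function.update_of_ne this, if_neg hj0, add_zero]
  · rw [dif_neg hj, dif_neg hj, if_neg (by omega), add_zero]

lemma gzero_natDegree_le (x : Fin (m + 1) ⊕ Fin (n + 1) → R) : (gzero x).natDegree ≤ n :=
  vecPoly_natDegree_le _

lemma gpoly_natDegree_le (x : Fin (m + 1) ⊕ Fin (n + 1) → R) : (gpoly x).natDegree ≤ n :=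
  vecPoly_natDegree_le _

lemma fpoly_natDegree_le (x : Fin (m + 1) ⊕ Fin (n + 1) → R) : (fpoly x).natDegree ≤ m :=
  vecPoly_natDegree_le _

lemma fpoly_coeff_last (x : Fin (m + 1) ⊕ Fin (n + 1) → R) :
    (fpoly x).coeff m = x (Sum.inl (Fin.last m)) := by
  unfold fpoly
  rw [vecPoly_coeff, dif_pos (Nat.lt_succ_self m)]
  rfl

lemma gpoly_coeff_last (x : Fin (m + 1) ⊕ Fin (n + 1) → R) :
    (gpoly x).coeff n = x (Sum.inr (Fin.last n)) := by
  unfold gpoly
  rw [vecPoly_coeff, dif_pos (Nat.lt_succ_self n)]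
  rfl

/-- `Res_x(f, g₁ + t)` as a polynomial in `t`. -/
noncomputable def Rt (x : Fin (m + 1) ⊕ Fin (n + 1) → R) : R[X] :=
  resultant ((fpoly x).map C) ((gzero x).map C + C X) m n

lemma Rt_map (φ : R →+* S) (x : Fin (m + 1) ⊕ Fin (n + 1) → R) :
    (Rt x).map φ = Rt (fun i => φ (x i)) := by
  unfold Rt
  rw [← fpoly_map, ← gzero_map]
  have h := resultant_map_map ((fpoly x).map C) ((gzero x).map C + C X) m n (mapRingHom φ)
  rw [coe_mapRingHom] at h
  rw [← h]
  congr 1
  · rw [Polynomial.map_map, Polynomial.map_map]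
    congr 1
    ext; simp
  · rw [Polynomial.map_add, Polynomial.map_map, Polynomial.map_map]
    congr 2
    · ext; simp
    · simp

/-- Elimination polynomial. -/
noncomputable def Wd (x : Fin (m + 1) ⊕ Fin (n + 1) → R) : R :=
  resultant (Rt x) (derivative (Rt x)) m (m - 1)

lemma Wd_map (φ : R →+* S) (x : Fin (m + 1) ⊕ Fin (n + 1) → R) :
    φ (Wd x) = Wd (fun i => φ (x i)) := by
  unfold Wd
  rw [← Rt_map, ← resultant_map_map, derivative_map]

lemma Rt_eval (x : Fin (m + 1) ⊕ Fin (n + 1) → R) (s : R) :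
    (Rt x).eval s = resultant (fpoly x) (gzero x + C s) m n := by
  unfold Rt
  have h := resultant_map_map ((fpoly x).map C) ((gzero x).map C + C X) m n (evalRingHom s)
  rw [coe_evalRingHom] at h
  rw [← h]
  congr 1
  · rw [Polynomial.map_map]
    have : (evalRingHom s).comp C = RingHom.id R := by ext; simp
    rw [this, Polynomial.map_id]
  · rw [Polynomial.map_add, Polynomial.map_map]
    have : (evalRingHom s).comp C = RingHom.id R := by ext; simp
    rw [this, Polynomial.map_id]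
    simp

lemma Wd_update (x : Fin (m + 1) ⊕ Fin (n + 1) → R) (s : R) :
    Wd (Function.update x (Sum.inr 0) s) = Wd x := by
  unfold Wd Rt gzero
  have h1 : fpoly (Function.update x (Sum.inr 0) s) = fpoly x := by
    unfold fpoly; congr 1
  rw [h1, Function.update_idem]

/-- `Rt` when `f` splits. -/
lemma Rt_eq_prod {K : Type*} [Field K] (x : Fin (m + 1) ⊕ Fin (n + 1) → K)
    (hlc : x (Sum.inl (Fin.last m)) ≠ 0) (hs : (fpoly x).Splits) :
    Rt x = C (x (Sum.inl (Fin.last m)) ^ n) *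
      ((fpoly x).roots.map (fun α => X + C ((gzero x).eval α))).prod := by
  have hdeg : (fpoly x).natDegree = m := by
    apply le_antisymm (fpoly_natDegree_le x)
    apply le_natDegree_of_ne_zero
    rwa [fpoly_coeff_last]
  have hlc' : (fpoly x).leadingCoeff = x (Sum.inl (Fin.last m)) := by
    rw [leadingCoeff, hdeg, fpoly_coeff_last]
  have hinj : Function.Injective (C : K →+* K[X]) := C_injective
  have h := resultant_eq_prod_eval ((fpoly x).map C) ((gzero x).map C + C X) n ?_ (hs.map C)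
  · rw [natDegree_map_eq_of_injective hinj, hdeg, leadingCoeff_map_of_injective hinj, hlc'] at h
    unfold Rt
    rw [h, map_pow]
    congr 1
    rw [hs.roots_map_of_injective hinj, Multiset.map_map]
    congr 1
    refine Multiset.map_congr rfl fun α _ => ?_
    simp only [Function.comp_apply, eval_add, eval_C, eval_map, eval₂_at_apply]
    ring
  · refine (natDegree_add_le _ _).trans (max_le ?_ ?_)
    · exact natDegree_map_le.trans (gzero_natDegree_le x)
    · simp

end Poly

section Vanish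

variable {K : Type*} [Field K] {m n : ℕ}

lemma Rt_natDegree_of_splits (x : Fin (m + 1) ⊕ Fin (n + 1) → K)
    (hlc : x (Sum.inl (Fin.last m)) ≠ 0) (hs : (fpoly x).Splits) : (Rt x).natDegree = m := by
  have hdeg : (fpoly x).natDegree = m := by
    apply le_antisymm (fpoly_natDegree_le x)
    apply le_natDegree_of_ne_zero
    rwa [fpoly_coeff_last]
  rw [Rt_eq_prod x hlc hs, natDegree_C_mul (pow_ne_zero _ hlc)]
  have h1 : ((fpoly x).roots.map (fun α => X + C ((gzero x).eval α))) =
      (((fpoly x).roots.map (fun α => -((gzero x).eval α))).map (fun a => X - C a)) := by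
    rw [Multiset.map_map]
    refine Multiset.map_congr rfl fun α _ => ?_
    simp
  rw [h1, natDegree_multiset_prod_X_sub_C_eq_card, Multiset.card_map, ← hs.natDegree_eq_card_roots,
    hdeg]

lemma algebraMap_comp_last (x : Fin (m + 1) ⊕ Fin (n + 1) → K)
    (hlc : x (Sum.inl (Fin.last m)) ≠ 0) :
    (fun i => algebraMap K (AlgebraicClosure K) (x i)) (Sum.inl (Fin.last m)) ≠ 0 := by
  simpa using hlc

lemma Rt_natDegree (x : Fin (m + 1) ⊕ Fin (n + 1) → K)
    (hlc : x (Sum.inl (Fin.last m)) ≠ 0) : (Rt x).natDegree = m := by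
  have h := Rt_natDegree_of_splits (fun i => algebraMap K (AlgebraicClosure K) (x i))
    (algebraMap_comp_last x hlc) (IsAlgClosed.splits _)
  rw [← Rt_map, natDegree_map_eq_of_injective (algebraMap K (AlgebraicClosure K)).injective] at h
  exact h

lemma Rt_ne_zero (hm : 1 ≤ m) (x : Fin (m + 1) ⊕ Fin (n + 1) → K)
    (hlc : x (Sum.inl (Fin.last m)) ≠ 0) : Rt x ≠ 0 := by
  intro h
  have := Rt_natDegree x hlc
  rw [h, natDegree_zero] at this
  omega

lemma Wd_eq_zero_of_sq_dvd (hm : 1 ≤ m) (x : Fin (m + 1) ⊕ Fin (n + 1) → K)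
    (hlc : x (Sum.inl (Fin.last m)) ≠ 0) (b : K) (h : (X - C b) ^ 2 ∣ Rt x) :
    Wd x = 0 ∧ (Rt x).eval b = 0 := by
  obtain ⟨q, hq⟩ := h
  have h1 : (Rt x).eval b = 0 := by rw [hq]; simp
  have h2 : (derivative (Rt x)).eval b = 0 := by
    rw [hq, derivative_mul, derivative_pow]; simp
  refine ⟨?_, h1⟩
  obtain ⟨p, r, -, -, hpr⟩ := exists_mul_add_mul_eq_C_resultant (m := m) (n := m - 1) (Rt x)
    (derivative (Rt x)) (Rt_natDegree x hlc).le
    ((natDegree_derivative_le _).trans (by rw [Rt_natDegree x hlc])) (Or.inl (by omega))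
  have h3 := congrArg (eval b) hpr
  rw [eval_add, eval_mul, eval_mul, h1, h2, eval_C] at h3
  simp only [zero_mul, add_zero] at h3
  exact h3.symm

/-- If the leading coefficient of `f` is nonzero and the pair is bad, then the elimination
polynomial vanishes and so does the resultant. -/
lemma Wd_eq_zero_of_bad (hm : 1 ≤ m) (x : Fin (m + 1) ⊕ Fin (n + 1) → K)
    (hlc : x (Sum.inl (Fin.last m)) ≠ 0) (hbad : ¬ GoodPair m n (fpoly x) (gpoly x)) :
    Wd x = 0 ∧ (Rt x).eval (x (Sum.inr 0)) = 0 := by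
  obtain ⟨D, hDf, hDg, hD2⟩ : ∃ D : K[X], D ∣ fpoly x ∧ D ∣ gpoly x ∧ 2 ≤ D.natDegree := by
    by_contra hcon
    push Not at hcon
    apply hbad
    refine ⟨Or.inl (by rwa [fpoly_coeff_last]), fun D h1 h2 => ?_⟩
    have := hcon D h1 h2
    omega
  set L := AlgebraicClosure K
  set φ := algebraMap K L with hφ
  set y : Fin (m + 1) ⊕ Fin (n + 1) → L := fun i => φ (x i) with hy
  have hlcy : y (Sum.inl (Fin.last m)) ≠ 0 := algebraMap_comp_last x hlc
  have hfy : (fpoly x).map φ = fpoly y := fpoly_map φ x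
  have hgy : (gpoly x).map φ = gpoly y := gpoly_map φ x
  have hf0 : fpoly y ≠ 0 := by
    intro h
    apply hlcy
    rw [← fpoly_coeff_last y, h, coeff_zero]
  have hDf' : D.map φ ∣ fpoly y := by rw [← hfy]; exact Polynomial.map_dvd φ hDf
  have hDg' : D.map φ ∣ gpoly y := by rw [← hgy]; exact Polynomial.map_dvd φ hDg
  have hsq : (X - C (y (Sum.inr 0))) ^ 2 ∣ Rt y := by
    rw [Rt_eq_prod y hlcy (IsAlgClosed.splits _)]
    have hle : (D.map φ).roots ≤ (fpoly y).roots := roots.le_of_dvd hf0 hDf'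
    obtain ⟨r, hr⟩ := Multiset.le_iff_exists_add.mp hle
    rw [hr, Multiset.map_add, Multiset.prod_add]
    have h1 : (D.map φ).roots.map (fun α => X + C ((gzero y).eval α)) =
        Multiset.replicate (D.map φ).natDegree (X - C (y (Sum.inr 0))) := by
      rw [(IsAlgClosed.splits (D.map φ)).natDegree_eq_card_roots, Multiset.eq_replicate]
      refine ⟨Multiset.card_map _ _, ?_⟩
      intro b hb
      obtain ⟨α, hα, rfl⟩ := Multiset.mem_map.mp hb
      have hroot : (gpoly y).eval α = 0 := by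
        obtain ⟨q, hq⟩ := hDg'
        rw [hq, eval_mul, (mem_roots'.mp hα).2.eq_zero, zero_mul]
      rw [gpoly_eq_gzero_add, eval_add, eval_C] at hroot
      rw [eq_neg_of_add_eq_zero_left hroot, map_neg]
      ring
    rw [h1, Multiset.prod_replicate, natDegree_map]
    obtain ⟨e, he⟩ := Nat.exists_eq_add_of_le hD2
    rw [he, pow_add]
    refine ⟨C (y (Sum.inl (Fin.last m)) ^ n) * ((X - C (y (Sum.inr 0))) ^ e *
      (Multiset.map (fun α => X + C (eval α (gzero y))) r).prod), ?_⟩
    ring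
  obtain ⟨h1, h2⟩ := Wd_eq_zero_of_sq_dvd hm y hlcy _ hsq
  constructor
  · have : φ (Wd x) = 0 := by rw [Wd_map]; exact h1
    exact (map_eq_zero φ).mp this
  · have : φ ((Rt x).eval (x (Sum.inr 0))) = 0 := by
      rw [← eval_map_apply, Rt_map]; exact h2
    exact (map_eq_zero φ).mp this

/-- Over `ℂ`: if `Wd` vanishes then `f` has a double root or `g₁` takes the same value at two
distinct roots. -/
lemma exceptional_of_Wd_eq_zero (hm : 1 ≤ m) (x : Fin (m + 1) ⊕ Fin (n + 1) → ℂ)
    (hlc : x (Sum.inl (Fin.last m)) ≠ 0) (hW : Wd x = 0) :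
    (∃ α : ℂ, (fpoly x).eval α = 0 ∧ (derivative (fpoly x)).eval α = 0) ∨
    (∃ α β : ℂ, α ≠ β ∧ (fpoly x).eval α = 0 ∧ (fpoly x).eval β = 0 ∧
      (gzero x).eval α = (gzero x).eval β) := by
  by_contra hcon
  push Not at hcon
  obtain ⟨h1, h2⟩ := hcon
  have hs : (fpoly x).Splits := IsAlgClosed.splits _
  have hf0 : fpoly x ≠ 0 := by
    intro h
    apply hlc
    rw [← fpoly_coeff_last x, h, coeff_zero]
  have hsep : (fpoly x).Separable := by
    rw [← nodup_roots_iff_of_splits hf0 hs, Multiset.nodup_iff_count_le_one]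
    intro α
    rw [count_roots]
    by_contra hc
    push Not at hc
    have hroot : IsRoot (fpoly x) α ∧ IsRoot (derivative (fpoly x)) α :=
      (one_lt_rootMultiplicity_iff_isRoot hf0).mp hc
    exact h1 α hroot.1 hroot.2
  have hnd : (fpoly x).roots.Nodup := nodup_roots hsep
  have hnd2 : ((fpoly x).roots.map (fun α => -((gzero x).eval α))).Nodup := by
    refine Multiset.Nodup.map_on ?_ hnd
    intro α hα β hβ hab
    by_contra hne
    exact h2 α β hne (mem_roots'.mp hα).2 (mem_roots'.mp hβ).2 (neg_injective hab)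
  have hRt := Rt_eq_prod x hlc hs
  have h3 : ((fpoly x).roots.map (fun α => X + C ((gzero x).eval α))) =
      (((fpoly x).roots.map (fun α => -((gzero x).eval α))).map (fun a => X - C a)) := by
    rw [Multiset.map_map]
    refine Multiset.map_congr rfl fun α _ => ?_
    simp
  rw [h3] at hRt
  have hR0 : Rt x ≠ 0 := Rt_ne_zero hm x hlc
  have hRroots : (Rt x).roots = (fpoly x).roots.map (fun α => -((gzero x).eval α)) := by
    rw [hRt, roots_C_mul _ (pow_ne_zero _ hlc), roots_multiset_prod_X_sub_C]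
  have hRsep : (Rt x).Separable := by
    rw [← nodup_roots_iff_of_splits hR0 (IsAlgClosed.splits _), hRroots]
    exact hnd2
  have hRdeg : (Rt x).natDegree = m := Rt_natDegree x hlc
  have hRder : (derivative (Rt x)).natDegree = m - 1 := by
    rw [natDegree_derivative, hRdeg]
  have h4 := resultant_ne_zero (Rt x) (derivative (Rt x)) hRsep
  rw [hRdeg, hRder] at h4
  exact h4 hW

end Vanish

section Count

/-- Fibre counting. -/
lemma fiber_card_le {ι : Type*} [Fintype ι] [DecidableEq ι] {α : Type*} (φ : ℤ → α) (hφ : Function.Injective φ)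
    (S : Finset (ι → ℤ)) (a b : ι → ℤ) (hS : S ⊆ ibox a b) (j : ι) (c : ℕ)
    (h : ∀ x ∈ S, ∃ T : Finset α, T.card ≤ c ∧ ∀ y ∈ S, (∀ i, i ≠ j → y i = x i) → φ (y j) ∈ T) :
    S.card ≤ c * ∏ i ∈ Finset.univ.erase j, (Finset.Icc (a i) (b i)).card := by
  have h1 : ∀ z ∈ S.image (fun x => Function.update x j 0),
      (S.filter (fun x => Function.update x j 0 = z)).card ≤ c := by
    intro z hz
    obtain ⟨x, hx, rfl⟩ := Finset.mem_image.mp hz
    obtain ⟨T, hT, hT'⟩ := h x hx
    refine le_trans (Finset.card_le_card_of_injOn (fun y => φ (y j)) ?_ ?_) hT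
    · intro y hy
      obtain ⟨hyS, hyx⟩ := Finset.mem_filter.mp hy
      refine hT' y hyS fun i hi => ?_
      have := congrFun hyx i
      simpa [Function.update_of_ne hi] using this
    · intro y hy y' hy' hyy
      have e1 := (Finset.mem_filter.mp hy).2
      have e2 := (Finset.mem_filter.mp hy').2
      ext i
      by_cases hi : i = j
      · subst hi; exact hφ hyy
      · have := congrFun (e1.trans e2.symm) i
        simpa [Function.update_of_ne hi] using this
  refine (Finset.card_le_mul_card_image S c h1).trans (Nat.mul_le_mul_left c ?_)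
  have h2 : S.image (fun x => Function.update x j 0) ⊆
      Fintype.piFinset (fun i => if i = j then {0} else Finset.Icc (a i) (b i)) := by
    intro z hz
    obtain ⟨x, hx, rfl⟩ := Finset.mem_image.mp hz
    rw [Fintype.mem_piFinset]
    intro i
    by_cases hi : i = j
    · subst hi; simp
    · rw [if_neg hi, Function.update_of_ne hi]
      exact (Fintype.mem_piFinset.mp (hS hx)) i
  refine (Finset.card_le_card h2).trans ?_
  rw [Fintype.card_piFinset, ← Finset.mul_prod_erase _ _ (Finset.mem_univ j)]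
  simp only [if_true, Finset.card_singleton, one_mul]
  refine le_of_eq (Finset.prod_congr rfl fun i hi => ?_)
  rw [if_neg (Finset.mem_erase.mp hi).1]

variable {m n : ℕ}

/-- lower ends of the coefficient intervals -/
def lo (m n H : ℕ) : Fin (m + 1) ⊕ Fin (n + 1) → ℤ :=
  Sum.elim (fun i => if i = Fin.last m then 1 else -(H : ℤ))
    (fun i => if i = Fin.last n then 1 else -(H : ℤ))

/-- upper ends of the coefficient intervals -/
def hi (m n H : ℕ) : Fin (m + 1) ⊕ Fin (n + 1) → ℤ := fun _ => (H : ℤ)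

/-- the box of coefficient vectors -/
noncomputable def BX (m n H : ℕ) : Finset (Fin (m + 1) ⊕ Fin (n + 1) → ℤ) :=
  ibox (lo m n H) (hi m n H)

lemma lo_ge (H : ℕ) (i) : -(H : ℤ) ≤ lo m n H i := by
  rcases i with i | i <;> simp only [lo, Sum.elim_inl, Sum.elim_inr] <;> split_ifs <;> omega

lemma lo_le (H : ℕ) (i) : lo m n H i ≤ 1 := by
  rcases i with i | i <;> simp only [lo, Sum.elim_inl, Sum.elim_inr] <;> split_ifs <;> omega

lemma interval_card_le (H : ℕ) (hH : 1 ≤ H) (i) :
    (Finset.Icc (lo m n H i) (hi m n H i)).card ≤ 3 * H := by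
  rw [Int.card_Icc]
  have := lo_ge (m := m) (n := n) H i
  unfold hi
  omega

lemma fiber_prod_le (H : ℕ) (hH : 1 ≤ H) (j : Fin (m + 1) ⊕ Fin (n + 1)) :
    ∏ i ∈ Finset.univ.erase j, (Finset.Icc (lo m n H i) (hi m n H i)).card ≤
      (3 * H) ^ (m + n + 1) := by
  refine (Finset.prod_le_prod' fun i _ => interval_card_le H hH i).trans ?_
  rw [Finset.prod_const, Finset.card_erase_of_mem (Finset.mem_univ j), Finset.card_univ]
  simp only [Fintype.card_sum, Fintype.card_fin]
  exact le_of_eq (by congr 1; omega)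

lemma mem_BX {H : ℕ} {x : Fin (m + 1) ⊕ Fin (n + 1) → ℤ} :
    x ∈ BX m n H ↔ ∀ i, lo m n H i ≤ x i ∧ x i ≤ H := by
  unfold BX ibox
  rw [Fintype.mem_piFinset]
  simp only [Finset.mem_Icc, hi]

lemma BX_abs_le {H : ℕ} {x : Fin (m + 1) ⊕ Fin (n + 1) → ℤ} (hx : x ∈ BX m n H) (i) :
    |x i| ≤ H := by
  rw [mem_BX] at hx
  have h1 := hx i
  have h2 := lo_ge (m := m) (n := n) H i
  rw [abs_le]
  omega

lemma BX_last {H : ℕ} {x : Fin (m + 1) ⊕ Fin (n + 1) → ℤ} (hx : x ∈ BX m n H) :
    0 < x (Sum.inl (Fin.last m)) ∧ x (Sum.inl (Fin.last m)) ≤ H := by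
  rw [mem_BX] at hx
  have h1 := hx (Sum.inl (Fin.last m))
  simp only [lo, Sum.elim_inl, if_true] at h1
  omega

lemma vecPoly_eq_add {R : Type*} [CommRing R] {k : ℕ} (a b : Fin k → R) (j : Fin k)
    (h : ∀ i, i ≠ j → b i = a i) : vecPoly b = vecPoly a + C (b j - a j) * X ^ (j : ℕ) := by
  ext i
  rw [coeff_add, coeff_C_mul, coeff_X_pow, vecPoly_coeff, vecPoly_coeff]
  by_cases hi : i < k
  · rw [dif_pos hi, dif_pos hi]
    by_cases hij : i = j
    · subst hij
      simp
    · rw [if_neg hij, h ⟨i, hi⟩ (fun hh => hij (by rw [← hh]))]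
      ring
  · rw [dif_neg hi, dif_neg hi, if_neg (fun hh : i = (j : ℕ) => hi (by rw [hh]; exact j.2))]
    ring

/-- complexification of an integer vector -/
noncomputable def cx (x : Fin (m + 1) ⊕ Fin (n + 1) → ℤ) : Fin (m + 1) ⊕ Fin (n + 1) → ℂ :=
  fun i => (x i : ℂ)

lemma cx_last_ne {H : ℕ} {x : Fin (m + 1) ⊕ Fin (n + 1) → ℤ} (hx : x ∈ BX m n H) :
    cx x (Sum.inl (Fin.last m)) ≠ 0 := by
  have := (BX_last hx).1
  unfold cx
  exact_mod_cast this.ne'

lemma cx_fpoly_ne {H : ℕ} {x : Fin (m + 1) ⊕ Fin (n + 1) → ℤ} (hx : x ∈ BX m n H) :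
    fpoly (cx x) ≠ 0 := by
  intro h
  apply cx_last_ne hx
  rw [← fpoly_coeff_last (cx x), h, coeff_zero]

lemma cx_fpoly_natDegree {H : ℕ} {x : Fin (m + 1) ⊕ Fin (n + 1) → ℤ} (hx : x ∈ BX m n H) :
    (fpoly (cx x)).natDegree = m := by
  apply le_antisymm (fpoly_natDegree_le _)
  apply le_natDegree_of_ne_zero
  rw [fpoly_coeff_last]
  exact cx_last_ne hx

open scoped Classical in
lemma S1_card_le (hm : 1 ≤ m) (H : ℕ) (hH : 1 ≤ H) :
    ((BX m n H).filter (fun x => ∃ α : ℂ, (fpoly (cx x)).eval α = 0 ∧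
      (derivative (fpoly (cx x))).eval α = 0)).card ≤ m * (3 * H) ^ (m + n + 1) := by
  refine (fiber_card_le (fun z : ℤ => (z : ℂ)) Int.cast_injective _ (lo m n H) (hi m n H)
    (Finset.filter_subset _ _) (Sum.inl 0) m ?_).trans
    (Nat.mul_le_mul_left m (fiber_prod_le H hH _))
  intro x hx
  obtain ⟨hxB, hxα⟩ := Finset.mem_filter.mp hx
  have hd0 : derivative (fpoly (cx x)) ≠ 0 := by
    rw [Ne, derivative_eq_zero, cx_fpoly_natDegree hxB]; omega
  refine ⟨(derivative (fpoly (cx x))).roots.toFinset.image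
    (fun α => (x (Sum.inl 0) : ℂ) - (fpoly (cx x)).eval α), ?_, ?_⟩
  · refine Finset.card_image_le.trans ((Multiset.toFinset_card_le _).trans
      ((card_roots' _).trans ((natDegree_derivative_le _).trans ?_)))
    rw [cx_fpoly_natDegree hxB]; omega
  · intro y hy hyx
    obtain ⟨hyB, α, h1, h2⟩ := Finset.mem_filter.mp hy
    have hfy : fpoly (cx y) = fpoly (cx x) + C ((y (Sum.inl 0) : ℂ) - x (Sum.inl 0)) := by
      have := vecPoly_eq_add (fun i => cx x (Sum.inl i)) (fun i => cx y (Sum.inl i)) 0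
        (fun i hi => by
          unfold cx
          rw [hyx (Sum.inl i) (fun h => hi (Sum.inl_injective h))])
      unfold fpoly
      rw [this]
      simp [cx]
    rw [hfy] at h1 h2
    rw [derivative_add, derivative_C, add_zero] at h2
    rw [eval_add, eval_C] at h1
    rw [Finset.mem_image]
    refine ⟨α, ?_, ?_⟩
    · rw [Multiset.mem_toFinset, mem_roots']
      exact ⟨hd0, h2⟩
    · linear_combination (-1 : ℂ) * h1

open scoped Classical in
lemma S4_card_le (H : ℕ) (hH : 1 ≤ H) :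
    ((BX m n H).filter (fun x => ∃ α : ℂ, (fpoly (cx x)).eval α = 0 ∧
      (gpoly (cx x)).eval α = 0)).card ≤ m * (3 * H) ^ (m + n + 1) := by
  refine (fiber_card_le (fun z : ℤ => (z : ℂ)) Int.cast_injective _ (lo m n H) (hi m n H)
    (Finset.filter_subset _ _) (Sum.inr 0) m ?_).trans
    (Nat.mul_le_mul_left m (fiber_prod_le H hH _))
  intro x hx
  obtain ⟨hxB, hxα⟩ := Finset.mem_filter.mp hx
  refine ⟨(fpoly (cx x)).roots.toFinset.image
    (fun α => (x (Sum.inr 0) : ℂ) - (gpoly (cx x)).eval α), ?_, ?_⟩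
  · refine Finset.card_image_le.trans ((Multiset.toFinset_card_le _).trans
      ((card_roots' _).trans ?_))
    rw [cx_fpoly_natDegree hxB]
  · intro y hy hyx
    obtain ⟨hyB, α, h1, h2⟩ := Finset.mem_filter.mp hy
    have hfy : fpoly (cx y) = fpoly (cx x) := by
      unfold fpoly
      congr 1
      ext i
      unfold cx
      rw [hyx (Sum.inl i) (by simp)]
    have hgy : gpoly (cx y) = gpoly (cx x) + C ((y (Sum.inr 0) : ℂ) - x (Sum.inr 0)) := by
      have := vecPoly_eq_add (fun i => cx x (Sum.inr i)) (fun i => cx y (Sum.inr i)) 0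
        (fun i hi => by
          unfold cx
          rw [hyx (Sum.inr i) (fun h => hi (Sum.inr_injective h))])
      unfold gpoly
      rw [this]
      simp [cx]
    rw [hfy] at h1
    rw [hgy, eval_add, eval_C] at h2
    rw [Finset.mem_image]
    refine ⟨α, ?_, ?_⟩
    · rw [Multiset.mem_toFinset, mem_roots']
      exact ⟨cx_fpoly_ne hxB, h1⟩
    · linear_combination (-1 : ℂ) * h2

open scoped Classical in
lemma S2_card_le (hn : 2 ≤ n) (H : ℕ) (hH : 1 ≤ H) :
    ((BX m n H).filter (fun x => ∃ α β : ℂ, α ≠ β ∧ (fpoly (cx x)).eval α = 0 ∧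
      (fpoly (cx x)).eval β = 0 ∧ (gzero (cx x)).eval α = (gzero (cx x)).eval β)).card ≤
      m ^ 2 * (3 * H) ^ (m + n + 1) := by
  obtain ⟨n', rfl⟩ := Nat.exists_eq_add_of_le' hn
  refine (fiber_card_le (fun z : ℤ => (z : ℂ)) Int.cast_injective _ (lo m (n' + 2) H)
    (hi m (n' + 2) H) (Finset.filter_subset _ _) (Sum.inr 1) (m ^ 2) ?_).trans
    (Nat.mul_le_mul_left _ (fiber_prod_le H hH _))
  intro x hx
  obtain ⟨hxB, -⟩ := Finset.mem_filter.mp hx
  refine ⟨((fpoly (cx x)).roots.toFinset ×ˢ (fpoly (cx x)).roots.toFinset).image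
    (fun p => (x (Sum.inr 1) : ℂ) -
      ((gzero (cx x)).eval p.1 - (gzero (cx x)).eval p.2) / (p.1 - p.2)), ?_, ?_⟩
  · refine Finset.card_image_le.trans ?_
    rw [Finset.card_product, sq]
    have h1 : (fpoly (cx x)).roots.toFinset.card ≤ m := by
      refine (Multiset.toFinset_card_le _).trans ((card_roots' _).trans ?_)
      rw [cx_fpoly_natDegree hxB]
    exact Nat.mul_le_mul h1 h1
  · intro y hy hyx
    obtain ⟨hyB, α, β, hne, h1, h2, h3⟩ := Finset.mem_filter.mp hy
    have hfy : fpoly (cx y) = fpoly (cx x) := by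
      unfold fpoly
      congr 1
      ext i
      unfold cx
      rw [hyx (Sum.inl i) (by simp)]
    have hgy : gzero (cx y) = gzero (cx x) +
        C ((y (Sum.inr 1) : ℂ) - x (Sum.inr 1)) * X := by
      have := vecPoly_eq_add (fun i => Function.update (cx x) (Sum.inr 0) 0 (Sum.inr i))
        (fun i => Function.update (cx y) (Sum.inr 0) 0 (Sum.inr i)) 1
        (fun i hi => by
          by_cases hi0 : i = 0
          · subst hi0; simp
          · have : (Sum.inr i : Fin (m + 1) ⊕ Fin (n' + 2 + 1)) ≠ Sum.inr 0 :=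
              fun h => hi0 (Sum.inr_injective h)
            rw [Function.update_of_ne this, Function.update_of_ne this]
            unfold cx
            rw [hyx (Sum.inr i) (fun h => hi (Sum.inr_injective h))])
      unfold gzero gpoly
      rw [this]
      have h10 : (Sum.inr 1 : Fin (m + 1) ⊕ Fin (n' + 2 + 1)) ≠ Sum.inr 0 :=
        fun h => absurd (Sum.inr_injective h) (by simp)
      simp [cx, h10]
    rw [hfy] at h1 h2
    rw [hgy] at h3
    simp only [eval_add, eval_mul, eval_C, eval_X] at h3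
    rw [Finset.mem_image]
    refine ⟨(α, β), ?_, ?_⟩
    · rw [Finset.mem_product, Multiset.mem_toFinset, Multiset.mem_toFinset, mem_roots', mem_roots']
      exact ⟨⟨cx_fpoly_ne hxB, h1⟩, ⟨cx_fpoly_ne hxB, h2⟩⟩
    · have hne' : α - β ≠ 0 := sub_ne_zero.mpr hne
      simp only
      field_simp
      linear_combination (-1 : ℂ) * h3

/-- Polynomial growth of integer multivariate polynomials. -/
lemma mv_bound {σ : Type*} (w : MvPolynomial σ ℤ) : ∃ C D : ℕ, ∀ H : ℕ, 1 ≤ H → ∀ x : σ → ℤ,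
    (∀ i, |x i| ≤ H) → |MvPolynomial.eval x w| ≤ C * (H : ℤ) ^ D := by
  induction w using MvPolynomial.induction_on with
  | C a =>
    refine ⟨a.natAbs, 0, fun H _ x _ => ?_⟩
    rw [MvPolynomial.eval_C, pow_zero, mul_one, Int.natCast_natAbs]
  | add p q hp hq =>
    obtain ⟨C1, D1, h1⟩ := hp
    obtain ⟨C2, D2, h2⟩ := hq
    refine ⟨C1 + C2, D1 + D2, fun H hH x hx => ?_⟩
    rw [map_add]
    refine (abs_add_le _ _).trans ?_
    have e1 := h1 H hH x hx
    have e2 := h2 H hH x hx
    have hH' : (1 : ℤ) ≤ H := by exact_mod_cast hH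
    have e3 : (H : ℤ) ^ D1 ≤ (H : ℤ) ^ (D1 + D2) := pow_le_pow_right₀ hH' (by omega)
    have e4 : (H : ℤ) ^ D2 ≤ (H : ℤ) ^ (D1 + D2) := pow_le_pow_right₀ hH' (by omega)
    push_cast
    rw [add_mul]
    exact add_le_add (e1.trans (mul_le_mul_of_nonneg_left e3 (by positivity)))
      (e2.trans (mul_le_mul_of_nonneg_left e4 (by positivity)))
  | mul_X p i hp =>
    obtain ⟨C1, D1, h1⟩ := hp
    refine ⟨C1, D1 + 1, fun H hH x hx => ?_⟩
    rw [map_mul, MvPolynomial.eval_X, abs_mul, pow_succ, ← mul_assoc]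
    exact mul_le_mul (h1 H hH x hx) (hx i) (abs_nonneg _) (by positivity)

lemma Wd_bound (m n : ℕ) : ∃ C D : ℕ, ∀ H : ℕ, 1 ≤ H → ∀ x : Fin (m + 1) ⊕ Fin (n + 1) → ℤ,
    (∀ i, |x i| ≤ H) → |Wd x| ≤ C * (H : ℤ) ^ D := by
  obtain ⟨C, D, h⟩ := mv_bound (Wd (fun i => (MvPolynomial.X i :
    MvPolynomial (Fin (m + 1) ⊕ Fin (n + 1)) ℤ)))
  refine ⟨C, D, fun H hH x hx => ?_⟩
  have h1 := h H hH x hx
  rw [Wd_map] at h1
  simpa using h1

/-- Number of large prime factors. -/
lemma large_primes_card (W H k : ℕ) (hW : W ≠ 0) (hH : 2 ≤ H) (h : W < H ^ k) :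
    (W.primeFactors.filter (fun l => H < l)).card ≤ k := by
  by_contra hcon
  push Not at hcon
  have h1 : H ^ (W.primeFactors.filter (fun l => H < l)).card ≤
      ∏ l ∈ W.primeFactors.filter (fun l => H < l), l := by
    rw [← Finset.prod_const]
    exact Finset.prod_le_prod' fun l hl => (Finset.mem_filter.mp hl).2.le
  have h2 : (∏ l ∈ W.primeFactors.filter (fun l => H < l), l) ∣ W :=
    (Finset.prod_dvd_prod_of_subset _ _ _ (Finset.filter_subset _ _)).trans
      (Nat.prod_primeFactors_dvd W)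
  have h3 := Nat.le_of_dvd (Nat.pos_of_ne_zero hW) h2
  have h4 : H ^ k ≤ H ^ (W.primeFactors.filter (fun l => H < l)).card :=
    Nat.pow_le_pow_right (by omega) hcon.le
  omega

end Count

end Pool.Agent.MP32694d
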