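import Mathlib
import Pool.Agent.MP32694d.Tail

open Polynomial Filter Topology

namespace Pool.Agent.MP32694d

variable {m n : ℕ}

/-- `x` is bad at `l`. -/
def BadAt (x : Fin (m + 1) ⊕ Fin (n + 1) → ℤ) (l : ℕ) : Prop :=
  (fun i => (x i : ZMod l)) ∉ goodSet (ZMod l) m n

lemma roots_in_interval (H l : ℕ) (hl : l.Prime) (hHl : H < l) (p : (ZMod l)[X]) (hp : p ≠ 0)
    (hdeg : p.natDegree ≤ m) :
    ((Finset.Icc (-(H : ℤ)) H).filter (fun b : ℤ => p.eval (b : ZMod l) = 0)).card ≤ 3 * m := by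
  have : Fact l.Prime := ⟨hl⟩
  have hsub : (Finset.Icc (-(H : ℤ)) H).filter (fun b : ℤ => p.eval (b : ZMod l) = 0) ⊆
      p.roots.toFinset.biUnion (fun r => (Finset.Icc (-(H : ℤ)) H).filter
        (fun b : ℤ => (b : ZMod l) = r)) := by
    intro b hb
    obtain ⟨h1, h2⟩ := Finset.mem_filter.mp hb
    rw [Finset.mem_biUnion]
    refine ⟨(b : ZMod l), ?_, Finset.mem_filter.mpr ⟨h1, rfl⟩⟩
    rw [Multiset.mem_toFinset, mem_roots']
    exact ⟨hp, h2⟩
  refine (Finset.card_le_card hsub).trans (Finset.card_biUnion_le.trans ?_)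
  have h3 : ∀ r ∈ p.roots.toFinset, ((Finset.Icc (-(H : ℤ)) H).filter
      (fun b : ℤ => (b : ZMod l) = r)).card ≤ 3 := by
    intro r _
    have h4 := card_Icc_residue_le l (-(H : ℤ)) H (by omega) r
    have h5 : (((H : ℤ) + 1 - (-(H : ℤ)) : ℤ) : ℝ) / l + 1 ≤ 3 := by
      have hl0 : (0 : ℝ) < l := by exact_mod_cast hl.pos
      have h6 : (((H : ℤ) + 1 - (-(H : ℤ)) : ℤ) : ℝ) ≤ 2 * l := by
        have : (H : ℤ) + 1 - (-(H : ℤ)) ≤ 2 * (l : ℤ) := by omega
        exact_mod_cast this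
      have h7 : (((H : ℤ) + 1 - (-(H : ℤ)) : ℤ) : ℝ) / l ≤ 2 := by
        rw [div_le_iff₀ hl0]; exact h6
      linarith
    exact_mod_cast h4.trans h5
  refine (Finset.sum_le_card_nsmul _ _ 3 h3).trans ?_
  rw [smul_eq_mul, mul_comm]
  refine Nat.mul_le_mul_left 3 ?_
  exact (Multiset.toFinset_card_le _).trans ((card_roots' p).trans hdeg)

open scoped Classical in
/-- Large primes, `Wd ≠ 0`. -/
lemma S3_card_le (hm : 1 ≤ m) (H k : ℕ) (hH : 2 ≤ H)
    (hk : ∀ x ∈ BX m n H, |Wd x| < (H : ℤ) ^ k) :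
    ((BX m n H).filter (fun x => Wd x ≠ 0 ∧ ∃ l : ℕ, l.Prime ∧ H < l ∧ BadAt x l)).card ≤
      k * (3 * m) * (3 * H) ^ (m + n + 1) := by
  refine (fiber_card_le (fun z : ℤ => z) (fun _ _ h => h) _ (lo m n H) (hi m n H)
    (Finset.filter_subset _ _) (Sum.inr 0) (k * (3 * m)) ?_).trans
    (Nat.mul_le_mul_left _ (fiber_prod_le H (by omega) _))
  intro x hx
  obtain ⟨hxB, hW, -⟩ := Finset.mem_filter.mp hx
  refine ⟨((Wd x).natAbs.primeFactors.filter (fun l => H < l)).biUnion (fun l =>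
    (Finset.Icc (-(H : ℤ)) H).filter (fun b : ℤ =>
      ((Rt x).map (Int.castRingHom (ZMod l))).eval (b : ZMod l) = 0)), ?_, ?_⟩
  · have hW0 : (Wd x).natAbs ≠ 0 := Int.natAbs_ne_zero.mpr hW
    have hWlt : (Wd x).natAbs < H ^ k := by
      have h1 := hk x hxB
      rw [Int.abs_eq_natAbs] at h1
      exact_mod_cast h1
    refine Finset.card_biUnion_le.trans ?_
    refine (Finset.sum_le_card_nsmul _ _ (3 * m) ?_).trans ?_
    · intro l hl
      obtain ⟨hl1, hl2⟩ := Finset.mem_filter.mp hl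
      have hlp : l.Prime := Nat.prime_of_mem_primeFactors hl1
      have : Fact l.Prime := ⟨hlp⟩
      have hlast : (((x (Sum.inl (Fin.last m))) : ℤ) : ZMod l) ≠ 0 := by
        rw [Ne, ZMod.intCast_zmod_eq_zero_iff_dvd]
        intro hd
        have h2 := BX_last hxB
        have := Int.le_of_dvd h2.1 hd
        omega
      rw [Rt_map]
      apply roots_in_interval H l hlp hl2
      · exact Rt_ne_zero hm _ hlast
      · exact (Rt_natDegree _ hlast).le
    · rw [smul_eq_mul]
      exact Nat.mul_le_mul_right _ (large_primes_card _ H k hW0 hH hWlt)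
  · intro y hy hyx
    obtain ⟨hyB, hWy, l, hl, hHl, hbad⟩ := Finset.mem_filter.mp hy
    have : Fact l.Prime := ⟨hl⟩
    have hyux : Function.update y (Sum.inr 0) 0 = Function.update x (Sum.inr 0) 0 := by
      ext i
      by_cases hi : i = Sum.inr 0
      · subst hi; simp
      · rw [Function.update_of_ne hi, Function.update_of_ne hi, hyx i hi]
    have hWyx : Wd y = Wd x := by
      rw [← Wd_update y 0, ← Wd_update x 0, hyux]
    have hRyx : Rt y = Rt x := by
      unfold Rt gzero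
      rw [hyux]
      have : fpoly y = fpoly x := by
        unfold fpoly
        congr 1
        ext i
        rw [hyx (Sum.inl i) (by simp)]
      rw [this]
    have hlast : (((y (Sum.inl (Fin.last m))) : ℤ) : ZMod l) ≠ 0 := by
      rw [Ne, ZMod.intCast_zmod_eq_zero_iff_dvd]
      intro hd
      have h2 := BX_last hyB
      have := Int.le_of_dvd h2.1 hd
      omega
    obtain ⟨h1, h2⟩ := Wd_eq_zero_of_bad hm (fun i => ((y i : ℤ) : ZMod l)) hlast hbad
    rw [Finset.mem_biUnion]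
    refine ⟨l, ?_, ?_⟩
    · rw [Finset.mem_filter, Nat.mem_primeFactors]
      refine ⟨⟨hl, ?_, Int.natAbs_ne_zero.mpr hW⟩, hHl⟩
      have h3 : ((Wd y : ℤ) : ZMod l) = 0 := by
        have := Wd_map (Int.castRingHom (ZMod l)) y
        rw [eq_intCast] at this
        rw [this]; exact h1
      rw [ZMod.intCast_zmod_eq_zero_iff_dvd, hWyx] at h3
      exact Int.natCast_dvd.mp h3
    · rw [Finset.mem_filter, Finset.mem_Icc]
      have h4 := BX_abs_le hyB (Sum.inr 0)
      rw [abs_le] at h4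
      refine ⟨h4, ?_⟩
      rw [← hRyx, Rt_map]
      exact h2

open scoped Classical in
/-- All large primes together. -/
lemma large_bad (hm : 1 ≤ m) (hn : 2 ≤ n) : ∃ C H0 : ℕ, ∀ H : ℕ, H0 ≤ H →
    ((BX m n H).filter (fun x => ∃ l : ℕ, l.Prime ∧ H < l ∧ BadAt x l)).card ≤
      C * H ^ (m + n + 1) := by
  obtain ⟨C, D, hCD⟩ := Wd_bound m n
  refine ⟨(m + m ^ 2 + (D + 1) * (3 * m)) * 3 ^ (m + n + 1), C + 2, fun H hH => ?_⟩
  have hH1 : 1 ≤ H := by omega
  have hk : ∀ x ∈ BX m n H, |Wd x| < (H : ℤ) ^ (D + 1) := by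
    intro x hx
    refine lt_of_le_of_lt (hCD H hH1 x (fun i => BX_abs_le hx i)) ?_
    rw [pow_succ, mul_comm]
    have h1 : (0 : ℤ) < (H : ℤ) ^ D := by positivity
    exact mul_lt_mul_of_pos_left (by exact_mod_cast (by omega : C < H)) h1
  have h1 := S1_card_le (m := m) (n := n) hm H hH1
  have h2 := S2_card_le (m := m) (n := n) hn H hH1
  have h3 := S3_card_le (m := m) (n := n) hm H (D + 1) (by omega) hk
  have hsub : (BX m n H).filter (fun x => ∃ l : ℕ, l.Prime ∧ H < l ∧ BadAt x l) ⊆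
      ((BX m n H).filter (fun x => ∃ α : ℂ, (fpoly (cx x)).eval α = 0 ∧
        (derivative (fpoly (cx x))).eval α = 0) ∪
      (BX m n H).filter (fun x => ∃ α β : ℂ, α ≠ β ∧ (fpoly (cx x)).eval α = 0 ∧
        (fpoly (cx x)).eval β = 0 ∧ (gzero (cx x)).eval α = (gzero (cx x)).eval β)) ∪
      (BX m n H).filter (fun x => Wd x ≠ 0 ∧ ∃ l : ℕ, l.Prime ∧ H < l ∧ BadAt x l) := by
    intro x hx
    obtain ⟨hxB, hbad⟩ := Finset.mem_filter.mp hx
    rw [Finset.mem_union, Finset.mem_union]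
    by_cases hW : Wd x = 0
    · left
      have hWc : Wd (cx x) = 0 := by
        have := Wd_map (Int.castRingHom ℂ) x
        rw [hW, map_zero] at this
        exact this.symm
      rcases exceptional_of_Wd_eq_zero hm (cx x) (cx_last_ne hxB) hWc with h | h
      · left; exact Finset.mem_filter.mpr ⟨hxB, h⟩
      · right; exact Finset.mem_filter.mpr ⟨hxB, h⟩
    · right
      exact Finset.mem_filter.mpr ⟨hxB, hW, hbad⟩
  refine (Finset.card_le_card hsub).trans ((Finset.card_union_le _ _).trans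
    ((Nat.add_le_add (Finset.card_union_le _ _) le_rfl).trans ?_))
  refine (Nat.add_le_add (Nat.add_le_add h1 h2) h3).trans (le_of_eq ?_)
  rw [mul_pow]
  ring

open scoped Classical in
/-- One medium prime. -/
lemma medium_bad (hm : 2 ≤ m) (hn : 2 ≤ n) (H l : ℕ) (hl : l.Prime) (hlH : l ≤ H) :
    (((BX m n H).filter (fun x => BadAt x l)).card : ℝ) ≤
      2 * 4 ^ (m + n + 2) * (H : ℝ) ^ (m + n + 2) / (l : ℝ) ^ 2 := by
  have : Fact l.Prime := ⟨hl⟩
  have hl0 : (0 : ℝ) < l := by exact_mod_cast hl.pos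
  have hfin : ((goodSet (ZMod l) m n)ᶜ).Finite := Set.toFinite _
  have hfil : (BX m n H).filter (fun x => BadAt x l) = (ibox (lo m n H) (hi m n H)).filter
      (fun x => (fun i => (x i : ZMod l)) ∈ hfin.toFinset) := by
    ext x
    simp only [BX, Finset.mem_filter, Set.Finite.mem_toFinset, BadAt, Set.mem_compl_iff]
  rw [hfil, ibox_filter_mem]
  push_cast
  have hterm : ∀ (r : Fin (m + 1) ⊕ Fin (n + 1) → ZMod l) (i : Fin (m + 1) ⊕ Fin (n + 1)),
      (((Finset.Icc (lo m n H i) (hi m n H i)).filter (fun y : ℤ => (y : ZMod l) = r i)).card : ℝ)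
        ≤ 4 * H / l := by
    intro r i
    have h1 := lo_ge (m := m) (n := n) H i
    have h2 := lo_le (m := m) (n := n) H i
    have h3 := card_Icc_residue_le l (lo m n H i) (hi m n H i) (by unfold hi; omega) (r i)
    refine h3.trans ?_
    have h4 : ((hi m n H i + 1 - lo m n H i : ℤ) : ℝ) ≤ 2 * H + 1 := by
      have : hi m n H i + 1 - lo m n H i ≤ 2 * (H : ℤ) + 1 := by unfold hi; omega
      exact_mod_cast this
    have h5 : (l : ℝ) ≤ H := by exact_mod_cast hlH
    have h6 : (1 : ℝ) ≤ H := by exact_mod_cast (hl.one_le.trans hlH)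
    rw [div_add_one hl0.ne']
    apply div_le_div_of_nonneg_right _ hl0.le
    linarith
  have hprod : ∀ r : Fin (m + 1) ⊕ Fin (n + 1) → ZMod l,
      ∏ i, (((Finset.Icc (lo m n H i) (hi m n H i)).filter
        (fun y : ℤ => (y : ZMod l) = r i)).card : ℝ) ≤ (4 * H / l) ^ (m + n + 2) := by
    intro r
    refine (Finset.prod_le_prod (fun i _ => Nat.cast_nonneg _) (fun i _ => hterm r i)).trans ?_
    rw [Finset.prod_const, Finset.card_univ]
    simp only [Fintype.card_sum, Fintype.card_fin]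
    exact le_of_eq (by congr 1; omega)
  refine (Finset.sum_le_sum fun r _ => hprod r).trans ?_
  rw [Finset.sum_const, nsmul_eq_mul]
  have hcard : (hfin.toFinset.card : ℝ) ≤ 2 * (l : ℝ) ^ (m + n) := by
    rw [← Set.ncard_eq_toFinset_card _ hfin]
    have := badSet_ncard_le (K := ZMod l) hm hn
    rwa [Nat.card_zmod] at this
  refine (mul_le_mul_of_nonneg_right hcard (by positivity)).trans (le_of_eq ?_)
  rw [div_pow, mul_pow]
  field_simp
  ring

end Pool.Agent.MP32694d
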