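import Mathlib
import Pool.Agent.MP32694d.Tail2

open Polynomial Filter Topology

namespace Pool.Agent.MP32694d

variable {m n : ℕ}

/-! ### The Euler product -/

lemma euler_real : Tendsto (fun M : ℕ => ∏ p ∈ M.primesBelow, (1 - 1 / (p : ℝ) ^ 2) ^ 2) atTop
    (𝓝 (36 / Real.pi ^ 4)) := by
  have h := riemannZeta_eulerProduct (s := 2) (by norm_num)
  rw [riemannZeta_two] at h
  have h1 : ∀ M : ℕ, (∏ p ∈ M.primesBelow, (1 - (p : ℂ) ^ (-(2 : ℂ)))⁻¹) =
      ((∏ p ∈ M.primesBelow, (1 - 1 / (p : ℝ) ^ 2)⁻¹ : ℝ) : ℂ) := by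
    intro M
    push_cast
    refine Finset.prod_congr rfl fun p _ => ?_
    rw [Complex.cpow_neg]
    norm_num
  have h2 : ((Real.pi : ℂ) ^ 2 / 6) = ((Real.pi ^ 2 / 6 : ℝ) : ℂ) := by push_cast; rfl
  simp_rw [h1] at h
  rw [h2] at h
  have h3 : Tendsto (fun M : ℕ => ∏ p ∈ M.primesBelow, (1 - 1 / (p : ℝ) ^ 2)⁻¹) atTop
      (𝓝 (Real.pi ^ 2 / 6)) := by
    have := (Complex.continuous_re.tendsto _).comp h
    simpa only [Function.comp_def, Complex.ofReal_re] using this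
  have hpi : Real.pi ^ 2 / 6 ≠ 0 := by positivity
  have h4 := (h3.inv₀ hpi).pow 2
  have h5 : ((Real.pi ^ 2 / 6)⁻¹) ^ 2 = 36 / Real.pi ^ 4 := by
    field_simp; norm_num
  rw [h5] at h4
  refine h4.congr fun M => ?_
  rw [← Finset.prod_inv_distrib, ← Finset.prod_pow]
  refine Finset.prod_congr rfl fun p _ => ?_
  rw [inv_inv]

/-! ### Sizes of boxes -/

lemma BX_card_ge (H : ℕ) (hH : 1 ≤ H) : H ^ (m + n + 2) ≤ (BX m n H).card := by
  unfold BX ibox
  rw [Fintype.card_piFinset]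
  have h1 : ∀ i : Fin (m + 1) ⊕ Fin (n + 1), H ≤ (Finset.Icc (lo m n H i) (hi m n H i)).card := by
    intro i
    rw [Int.card_Icc]
    have := lo_le (m := m) (n := n) H i
    unfold hi
    omega
  have h2 : ∏ _i : Fin (m + 1) ⊕ Fin (n + 1), H ≤
      ∏ i : Fin (m + 1) ⊕ Fin (n + 1), (Finset.Icc (lo m n H i) (hi m n H i)).card :=
    Finset.prod_le_prod' fun i _ => h1 i
  refine le_trans (le_of_eq ?_) h2
  rw [Finset.prod_const, Finset.card_univ]
  simp only [Fintype.card_sum, Fintype.card_fin]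
  congr 1
  omega

open scoped Classical in
/-- Vectors of coprime pairs. -/
noncomputable def Sv (m n H : ℕ) : Finset (Fin (m + 1) ⊕ Fin (n + 1) → ℤ) :=
  (BX m n H).filter (fun x => ¬ ∃ α : ℂ, (fpoly (cx x)).eval α = 0 ∧ (gpoly (cx x)).eval α = 0)

open scoped Classical in
/-- Vectors of coprime pairs good at all primes. -/
noncomputable def Ev (m n H : ℕ) : Finset (Fin (m + 1) ⊕ Fin (n + 1) → ℤ) :=
  (Sv m n H).filter (fun x => ∀ l : ℕ, l.Prime → ¬ BadAt x l)

open scoped Classical in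
/-- Vectors good at all primes below `M`. -/
noncomputable def Gv (m n M H : ℕ) : Finset (Fin (m + 1) ⊕ Fin (n + 1) → ℤ) :=
  (BX m n H).filter (fun x => ∀ l ∈ M.primesBelow, ¬ BadAt x l)

lemma Gv_tendsto (hm : 2 ≤ m) (hn : 2 ≤ n) (M : ℕ) :
    Tendsto (fun H => ((Gv m n M H).card : ℝ) / ((BX m n H).card : ℝ)) atTop
      (𝓝 (∏ p ∈ M.primesBelow, (1 - 1 / (p : ℝ) ^ 2) ^ 2)) := by
  classical
  have hP : ∀ p ∈ M.primesBelow, p.Prime := fun p hp => Nat.prime_of_mem_primesBelow hp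
  obtain ⟨A, hA1, hA2⟩ := crt_density (ι := Fin (m + 1) ⊕ Fin (n + 1)) M.primesBelow hP
    (fun p => goodSet (ZMod p) m n)
  have hne : (∏ p ∈ M.primesBelow, p) ≠ 0 := Finset.prod_ne_zero_iff.mpr fun p hp => (hP p hp).ne_zero
  have : NeZero (∏ p ∈ M.primesBelow, p) := ⟨hne⟩
  have h := tendsto_box_density (∏ p ∈ M.primesBelow, p) (fun H => lo m n H) (fun H => hi m n H)
    (fun H i => by have := lo_le (m := m) (n := n) H i; unfold hi; omega)
    (fun i => by
      refine tendsto_atTop_mono (f := fun H : ℕ => (H : ℝ)) ?_ tendsto_natCast_atTop_atTop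
      intro H
      have := lo_le (m := m) (n := n) H i
      have h1 : (H : ℤ) ≤ hi m n H i + 1 - lo m n H i := by unfold hi; omega
      exact_mod_cast h1) A
  rw [hA2] at h
  have h2 : ∏ p ∈ M.primesBelow, (((goodSet (ZMod p) m n).ncard : ℝ) /
      (p : ℝ) ^ (Fintype.card (Fin (m + 1) ⊕ Fin (n + 1)))) =
      ∏ p ∈ M.primesBelow, (1 - 1 / (p : ℝ) ^ 2) ^ 2 := by
    refine Finset.prod_congr rfl fun p hp => ?_
    have : Fact p.Prime := ⟨hP p hp⟩
    have hp0 : (p : ℝ) ≠ 0 := by exact_mod_cast (hP p hp).ne_zero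
    rw [goodSet_density hm hn, Nat.card_zmod]
    simp only [Fintype.card_sum, Fintype.card_fin]
    rw [show m + 1 + (n + 1) = m + n + 2 by omega]
    field_simp
  rw [h2] at h
  refine h.congr fun H => ?_
  congr 2
  unfold Gv BX
  congr 1
  ext x
  simp only [Finset.mem_filter]
  refine and_congr_right fun _ => ?_
  rw [hA1]
  unfold BadAt
  simp only [not_not]

lemma noncoprime_card (H : ℕ) (hH : 1 ≤ H) :
    (BX m n H).card ≤ (Sv m n H).card + m * 3 ^ (m + n + 1) * H ^ (m + n + 1) := by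
  classical
  have h := S4_card_le (m := m) (n := n) H hH
  have h2 := Finset.card_filter_add_card_filter_not (s := BX m n H)
    (fun x => ∃ α : ℂ, (fpoly (cx x)).eval α = 0 ∧ (gpoly (cx x)).eval α = 0)
  rw [mul_pow, ← mul_assoc] at h
  unfold Sv
  rw [← h2, add_comm]
  refine Nat.add_le_add (le_of_eq ?_) (le_trans (le_of_eq ?_) h)
  · congr
  · congr

lemma Ev_subset_Gv (M H : ℕ) : Ev m n H ⊆ Gv m n M H := by
  classical
  intro x hx
  unfold Ev Sv at hx
  rw [Finset.mem_filter, Finset.mem_filter] at hx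
  unfold Gv
  rw [Finset.mem_filter]
  exact ⟨hx.1.1, fun l hl => hx.2 l (Nat.prime_of_mem_primesBelow hl)⟩

/-- The sieve inequality. -/
lemma sieve_ineq (hm : 2 ≤ m) (hn : 2 ≤ n) : ∃ C : ℝ, ∃ H0 : ℕ, ∀ M H : ℕ, 2 ≤ M → M ≤ H → H0 ≤ H →
    ((Gv m n M H).card : ℝ) ≤ ((Ev m n H).card : ℝ) +
      2 * 4 ^ (m + n + 2) * (H : ℝ) ^ (m + n + 2) / ((M - 1 : ℕ) : ℝ) + C * (H : ℝ) ^ (m + n + 1) := by
  classical
  obtain ⟨C, H0, hC⟩ := large_bad (m := m) (n := n) (by omega) hn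
  refine ⟨C + m * 3 ^ (m + n + 1), max H0 1, fun M H hM hMH hH => ?_⟩
  have hH0 : H0 ≤ H := le_trans (le_max_left _ _) hH
  have hH1 : 1 ≤ H := le_trans (le_max_right _ _) hH
  have hsub : Gv m n M H ⊆ (Ev m n H ∪ (Finset.Ioc (M - 1) H).biUnion (fun l =>
      if l.Prime then (BX m n H).filter (fun x => BadAt x l) else ∅)) ∪
      ((BX m n H).filter (fun x => ∃ l : ℕ, l.Prime ∧ H < l ∧ BadAt x l) ∪
      (BX m n H).filter (fun x => ∃ α : ℂ, (fpoly (cx x)).eval α = 0 ∧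
        (gpoly (cx x)).eval α = 0)) := by
    intro x hx
    unfold Gv at hx
    rw [Finset.mem_filter] at hx
    obtain ⟨hxB, hx⟩ := hx
    rw [Finset.mem_union, Finset.mem_union, Finset.mem_union]
    by_cases hcop : ∃ α : ℂ, (fpoly (cx x)).eval α = 0 ∧ (gpoly (cx x)).eval α = 0
    · right; right; exact Finset.mem_filter.mpr ⟨hxB, hcop⟩
    by_cases hall : ∀ l : ℕ, l.Prime → ¬ BadAt x l
    · left; left
      unfold Ev Sv
      rw [Finset.mem_filter, Finset.mem_filter]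
      exact ⟨⟨hxB, hcop⟩, hall⟩
    push Not at hall
    obtain ⟨l, hl, hbad⟩ := hall
    by_cases hlH : l ≤ H
    · left; right
      rw [Finset.mem_biUnion]
      refine ⟨l, ?_, ?_⟩
      · rw [Finset.mem_Ioc]
        refine ⟨?_, hlH⟩
        by_contra hcon
        exact hx l (Nat.mem_primesBelow.mpr ⟨by omega, hl⟩) hbad
      · rw [if_pos hl]
        exact Finset.mem_filter.mpr ⟨hxB, hbad⟩
    · right; left
      exact Finset.mem_filter.mpr ⟨hxB, l, hl, by omega, hbad⟩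
  have h1 := Finset.card_le_card hsub
  have h2 := h1.trans ((Finset.card_union_le _ _).trans (Nat.add_le_add
    ((Finset.card_union_le _ _).trans (Nat.add_le_add le_rfl Finset.card_biUnion_le))
    (Finset.card_union_le _ _)))
  have h3 : ((Gv m n M H).card : ℝ) ≤ ((Ev m n H).card : ℝ) +
      ∑ l ∈ Finset.Ioc (M - 1) H, (((if l.Prime then (BX m n H).filter (fun x => BadAt x l) else ∅ :
        Finset (Fin (m + 1) ⊕ Fin (n + 1) → ℤ))).card : ℝ) +
      ((((BX m n H).filter (fun x => ∃ l : ℕ, l.Prime ∧ H < l ∧ BadAt x l)).card : ℝ) +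
      (((BX m n H).filter (fun x => ∃ α : ℂ, (fpoly (cx x)).eval α = 0 ∧
        (gpoly (cx x)).eval α = 0)).card : ℝ)) := by
    exact_mod_cast h2
  refine h3.trans ?_
  have h4 : ∑ l ∈ Finset.Ioc (M - 1) H, (((if l.Prime then (BX m n H).filter (fun x => BadAt x l)
      else ∅ : Finset (Fin (m + 1) ⊕ Fin (n + 1) → ℤ))).card : ℝ) ≤
      2 * 4 ^ (m + n + 2) * (H : ℝ) ^ (m + n + 2) / ((M - 1 : ℕ) : ℝ) := by
    have h5 : ∀ l ∈ Finset.Ioc (M - 1) H, (((if l.Prime then (BX m n H).filter (fun x => BadAt x l)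
      else ∅ : Finset (Fin (m + 1) ⊕ Fin (n + 1) → ℤ))).card : ℝ) ≤
        2 * 4 ^ (m + n + 2) * (H : ℝ) ^ (m + n + 2) * ((l : ℝ) ^ 2)⁻¹ := by
      intro l hl
      rw [Finset.mem_Ioc] at hl
      split_ifs with hlp
      · have := medium_bad hm hn H l hlp hl.2
        rwa [div_eq_mul_inv] at this
      · simp only [Finset.card_empty, Nat.cast_zero]
        positivity
    refine (Finset.sum_le_sum h5).trans ?_
    rw [← Finset.mul_sum, div_eq_mul_inv]
    refine mul_le_mul_of_nonneg_left ?_ (by positivity)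
    have h6 := sum_Ioc_inv_sq_le_sub (α := ℝ) (k := M - 1) (n := H) (by omega) (by omega)
    refine h6.trans ?_
    have : (0 : ℝ) ≤ ((H : ℕ) : ℝ)⁻¹ := by positivity
    linarith
  have h7 : (((BX m n H).filter (fun x => ∃ l : ℕ, l.Prime ∧ H < l ∧ BadAt x l)).card : ℝ) ≤
      C * (H : ℝ) ^ (m + n + 1) := by
    have := hC H hH0
    have h8 : (((BX m n H).filter (fun x => ∃ l : ℕ, l.Prime ∧ H < l ∧ BadAt x l)).card : ℝ) ≤
      ((C * H ^ (m + n + 1) : ℕ) : ℝ) := by
        refine le_trans (le_of_eq ?_) (Nat.cast_le.mpr this)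
        congr
    push_cast at h8
    exact h8
  have h9 : (((BX m n H).filter (fun x => ∃ α : ℂ, (fpoly (cx x)).eval α = 0 ∧
      (gpoly (cx x)).eval α = 0)).card : ℝ) ≤ m * 3 ^ (m + n + 1) * (H : ℝ) ^ (m + n + 1) := by
    have := S4_card_le (m := m) (n := n) H hH1
    rw [mul_pow, ← mul_assoc] at this
    have h8 : (((BX m n H).filter (fun x => ∃ α : ℂ, (fpoly (cx x)).eval α = 0 ∧
      (gpoly (cx x)).eval α = 0)).card : ℝ) ≤ ((m * 3 ^ (m + n + 1) * H ^ (m + n + 1) : ℕ) : ℝ) := by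
        refine le_trans (le_of_eq ?_) (Nat.cast_le.mpr this)
        congr
    push_cast at h8
    exact h8
  rw [add_mul]
  linarith

/-- Main density. -/
lemma Ev_tendsto (hm : 2 ≤ m) (hn : 2 ≤ n) :
    Tendsto (fun H => ((Ev m n H).card : ℝ) / ((BX m n H).card : ℝ)) atTop
      (𝓝 (36 / Real.pi ^ 4)) := by
  obtain ⟨C, H0, hC⟩ := sieve_ineq (m := m) (n := n) hm hn
  rw [Metric.tendsto_atTop]
  intro ε hε
  -- choose M
  have e1 := (Metric.tendsto_atTop.mp euler_real) (ε / 4) (by positivity)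
  obtain ⟨M1, hM1⟩ := e1
  have e2 : Tendsto (fun M : ℕ => 2 * 4 ^ (m + n + 2) / ((M - 1 : ℕ) : ℝ)) atTop (𝓝 0) := by
    apply Tendsto.div_atTop tendsto_const_nhds
    exact tendsto_natCast_atTop_atTop.comp (tendsto_sub_atTop_nat 1)
  obtain ⟨M2, hM2⟩ := (Metric.tendsto_atTop.mp e2) (ε / 4) (by positivity)
  set M := max (max M1 M2) 2 with hMdef
  have hMM1 : M1 ≤ M := le_trans (le_max_left _ _) (le_max_left _ _)
  have hMM2 : M2 ≤ M := le_trans (le_max_right _ _) (le_max_left _ _)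
  have hM2' : 2 ≤ M := le_max_right _ _
  have f1 := hM1 M hMM1
  have f2 := hM2 M hMM2
  rw [Real.dist_eq, sub_zero] at f2
  have f2' := lt_of_le_of_lt (le_abs_self _) f2
  obtain ⟨H1, hH1⟩ := (Metric.tendsto_atTop.mp (Gv_tendsto (m := m) (n := n) hm hn M)) (ε / 4)
    (by positivity)
  have e3 : Tendsto (fun H : ℕ => C / (H : ℝ)) atTop (𝓝 0) :=
    Tendsto.div_atTop tendsto_const_nhds tendsto_natCast_atTop_atTop
  obtain ⟨H2, hH2⟩ := (Metric.tendsto_atTop.mp e3) (ε / 4) (by positivity)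
  refine ⟨max (max H0 H1) (max (max H2 M) 1), fun H hH => ?_⟩
  have g0 : H0 ≤ H := le_trans (le_trans (le_max_left _ _) (le_max_left _ _)) hH
  have g1 : H1 ≤ H := le_trans (le_trans (le_max_right _ _) (le_max_left _ _)) hH
  have g2 : H2 ≤ H := le_trans (le_trans (le_max_left _ _) (le_trans (le_max_left _ _)
    (le_max_right _ _))) hH
  have g3 : M ≤ H := le_trans (le_trans (le_max_right _ _) (le_trans (le_max_left _ _)
    (le_max_right _ _))) hH
  have g4 : 1 ≤ H := le_trans (le_trans (le_max_right _ _) (le_max_right _ _)) hH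
  have k1 := hH1 H g1
  have k2 := hH2 H g2
  rw [Real.dist_eq, sub_zero] at k2
  have k2' := lt_of_le_of_lt (le_abs_self _) k2
  have k3 := hC M H hM2' g3 g0
  have hHpos : (0 : ℝ) < H := by exact_mod_cast g4
  have hBge : (H : ℝ) ^ (m + n + 2) ≤ ((BX m n H).card : ℝ) := by
    exact_mod_cast BX_card_ge (m := m) (n := n) H g4
  have hHd : (0 : ℝ) < (H : ℝ) ^ (m + n + 2) := by positivity
  have hBpos : (0 : ℝ) < ((BX m n H).card : ℝ) := lt_of_lt_of_le hHd hBge
  have k4 : ((Ev m n H).card : ℝ) ≤ ((Gv m n M H).card : ℝ) := by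
    exact_mod_cast Finset.card_le_card (Ev_subset_Gv M H)
  -- divide
  have k5 : ((Gv m n M H).card : ℝ) / ((BX m n H).card : ℝ) ≤
      ((Ev m n H).card : ℝ) / ((BX m n H).card : ℝ) + ε / 4 + ε / 4 := by
    have j1 : 2 * 4 ^ (m + n + 2) * (H : ℝ) ^ (m + n + 2) / ((M - 1 : ℕ) : ℝ) ≤
        ε / 4 * ((BX m n H).card : ℝ) := by
      have : 2 * 4 ^ (m + n + 2) * (H : ℝ) ^ (m + n + 2) / ((M - 1 : ℕ) : ℝ) =
        (2 * 4 ^ (m + n + 2) / ((M - 1 : ℕ) : ℝ)) * (H : ℝ) ^ (m + n + 2) := by ring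
      rw [this]
      exact mul_le_mul f2'.le hBge hHd.le (by positivity)
    have j2 : C * (H : ℝ) ^ (m + n + 1) ≤ ε / 4 * ((BX m n H).card : ℝ) := by
      have : C * (H : ℝ) ^ (m + n + 1) = (C / H) * (H : ℝ) ^ (m + n + 2) := by
        field_simp
        ring
      rw [this]
      exact mul_le_mul k2'.le hBge hHd.le (by positivity)
    rw [div_le_iff₀ hBpos, add_mul, add_mul, div_mul_cancel₀ _ hBpos.ne']
    linarith
  have k6 : ((Ev m n H).card : ℝ) / ((BX m n H).card : ℝ) ≤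
      ((Gv m n M H).card : ℝ) / ((BX m n H).card : ℝ) := div_le_div_of_nonneg_right k4 hBpos.le
  rw [Real.dist_eq, abs_lt] at *
  constructor <;> linarith [k1.1, k1.2, f1.1, f1.2]

lemma Sv_tendsto : Tendsto (fun H => ((Sv m n H).card : ℝ) / ((BX m n H).card : ℝ)) atTop (𝓝 1) := by
  classical
  have e3 : Tendsto (fun H : ℕ => 1 - (m * 3 ^ (m + n + 1) : ℝ) / (H : ℝ)) atTop (𝓝 (1 - 0)) :=
    tendsto_const_nhds.sub (Tendsto.div_atTop tendsto_const_nhds tendsto_natCast_atTop_atTop)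
  rw [sub_zero] at e3
  refine tendsto_of_tendsto_of_tendsto_of_le_of_le' e3 tendsto_const_nhds ?_ ?_
  · filter_upwards [eventually_ge_atTop 1] with H hH
    have h1 := noncoprime_card (m := m) (n := n) H hH
    have hHpos : (0 : ℝ) < H := by exact_mod_cast hH
    have hBge : (H : ℝ) ^ (m + n + 2) ≤ ((BX m n H).card : ℝ) := by
      exact_mod_cast BX_card_ge (m := m) (n := n) H hH
    have hHd : (0 : ℝ) < (H : ℝ) ^ (m + n + 2) := by positivity
    have hBpos : (0 : ℝ) < ((BX m n H).card : ℝ) := lt_of_lt_of_le hHd hBge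
    have h2 : ((BX m n H).card : ℝ) ≤ ((Sv m n H).card : ℝ) +
        m * 3 ^ (m + n + 1) * (H : ℝ) ^ (m + n + 1) := by exact_mod_cast h1
    have h3 : (m * 3 ^ (m + n + 1) : ℝ) * (H : ℝ) ^ (m + n + 1) ≤
        (m * 3 ^ (m + n + 1) : ℝ) / H * ((BX m n H).card : ℝ) := by
      have : (m * 3 ^ (m + n + 1) : ℝ) * (H : ℝ) ^ (m + n + 1) =
        (m * 3 ^ (m + n + 1) : ℝ) / H * (H : ℝ) ^ (m + n + 2) := by field_simp; ring
      rw [this]
      exact mul_le_mul_of_nonneg_left hBge (by positivity)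
    rw [le_div_iff₀ hBpos]
    linarith
  · filter_upwards with H
    apply div_le_one_of_le₀ _ (by positivity)
    exact_mod_cast Finset.card_filter_le _ _

lemma ratio_tendsto (hm : 2 ≤ m) (hn : 2 ≤ n) :
    Tendsto (fun H => ((Ev m n H).card : ℝ) / ((Sv m n H).card : ℝ)) atTop
      (𝓝 (36 / Real.pi ^ 4)) := by
  have h := (Ev_tendsto (m := m) (n := n) hm hn).div (Sv_tendsto (m := m) (n := n)) one_ne_zero
  rw [div_one] at h
  refine h.congr' ?_
  filter_upwards [eventually_ge_atTop 1] with H hH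
  have hBge : (H : ℝ) ^ (m + n + 2) ≤ ((BX m n H).card : ℝ) := by
    exact_mod_cast BX_card_ge (m := m) (n := n) H hH
  have hHpos : (0 : ℝ) < H := by exact_mod_cast hH
  have hHd : (0 : ℝ) < (H : ℝ) ^ (m + n + 2) := by positivity
  have hBpos : ((BX m n H).card : ℝ) ≠ 0 := (lt_of_lt_of_le hHd hBge).ne'
  rw [Pi.div_apply]
  rw [div_div_div_cancel_right₀ hBpos]

/-! ### Back to polynomials -/

lemma fpoly_mem (H : ℕ) {x : Fin (m + 1) ⊕ Fin (n + 1) → ℤ} (hx : x ∈ BX m n H) :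
    fpoly x ∈ polyBox m H := by
  have h1 := (BX_last hx).1
  have hdeg : (fpoly x).natDegree = m := by
    apply le_antisymm (fpoly_natDegree_le x)
    apply le_natDegree_of_ne_zero
    rw [fpoly_coeff_last]; exact h1.ne'
  refine ⟨hdeg, ?_, ?_⟩
  · rw [leadingCoeff, hdeg, fpoly_coeff_last]; exact h1
  · intro i
    unfold fpoly
    rw [vecPoly_coeff]
    split_ifs with hi
    · exact BX_abs_le hx _
    · simp

lemma gpoly_mem (H : ℕ) {x : Fin (m + 1) ⊕ Fin (n + 1) → ℤ} (hx : x ∈ BX m n H) :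
    gpoly x ∈ polyBox n H := by
  have h1 : 0 < x (Sum.inr (Fin.last n)) := by
    rw [mem_BX] at hx
    have h1 := hx (Sum.inr (Fin.last n))
    simp only [lo, Sum.elim_inr, if_true] at h1
    omega
  have hdeg : (gpoly x).natDegree = n := by
    apply le_antisymm (gpoly_natDegree_le x)
    apply le_natDegree_of_ne_zero
    rw [gpoly_coeff_last]; exact h1.ne'
  refine ⟨hdeg, ?_, ?_⟩
  · rw [leadingCoeff, hdeg, gpoly_coeff_last]; exact h1
  · intro i
    unfold gpoly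
    rw [vecPoly_coeff]
    split_ifs with hi
    · exact BX_abs_le hx _
    · simp

lemma coprime_iff (x : Fin (m + 1) ⊕ Fin (n + 1) → ℤ) :
    CoprimeC (fpoly x) (gpoly x) ↔
      ¬ ∃ α : ℂ, (fpoly (cx x)).eval α = 0 ∧ (gpoly (cx x)).eval α = 0 := by
  have h0 : cx x = fun i => (Int.castRingHom ℂ) (x i) := by
    funext i
    simp [cx]
  have h1 : fpoly (cx x) = (fpoly x).map (Int.castRingHom ℂ) := by
    rw [fpoly_map, h0]
  have h2 : gpoly (cx x) = (gpoly x).map (Int.castRingHom ℂ) := by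
    rw [gpoly_map, h0]
  unfold CoprimeC
  rw [h1, h2, not_exists]
  refine forall_congr' fun z => ?_
  rw [eval_map, eval_map, aeval_def, aeval_def]
  rfl

lemma map_injective_pair : Function.Injective
    (fun x : Fin (m + 1) ⊕ Fin (n + 1) → ℤ => (fpoly x, gpoly x)) := by
  intro x y hxy
  simp only [Prod.mk.injEq] at hxy
  have h1 := vecPoly_injective hxy.1
  have h2 := vecPoly_injective hxy.2
  ext i
  rcases i with i | i
  · exact congrFun h1 i
  · exact congrFun h2 i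

lemma exists_vec {H : ℕ} {f g : ℤ[X]} (hf : f ∈ polyBox m H) (hg : g ∈ polyBox n H) :
    ∃ x ∈ BX m n H, fpoly x = f ∧ gpoly x = g := by
  obtain ⟨hf1, hf2, hf3⟩ := hf
  obtain ⟨hg1, hg2, hg3⟩ := hg
  have hF : f.degree < ((m + 1 : ℕ) : WithBot ℕ) := by
    rw [degree_lt_iff_coeff_zero]
    intro j hj
    exact coeff_eq_zero_of_natDegree_lt (by omega)
  have hG : g.degree < ((n + 1 : ℕ) : WithBot ℕ) := by
    rw [degree_lt_iff_coeff_zero]
    intro j hj
    exact coeff_eq_zero_of_natDegree_lt (by omega)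
  refine ⟨Sum.elim (fun i : Fin (m + 1) => f.coeff (i : ℕ))
    (fun i : Fin (n + 1) => g.coeff (i : ℕ)), ?_, ?_, ?_⟩
  rotate_left
  · unfold fpoly
    simp only [Sum.elim_inl]
    exact vecPoly_of_degree_lt f hF
  · unfold gpoly
    simp only [Sum.elim_inr]
    exact vecPoly_of_degree_lt g hG
  rw [mem_BX]
  rintro (i | i)
  · simp only [lo, Sum.elim_inl]
    have h1 := abs_le.mp (hf3 i)
    split_ifs with hi
    · subst hi
      rw [leadingCoeff, hf1] at hf2
      have : (((Fin.last m : Fin (m + 1)) : ℕ)) = m := rfl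
      rw [this] at h1 ⊢
      exact ⟨by omega, h1.2⟩
    · exact h1
  · simp only [lo, Sum.elim_inr]
    have h1 := abs_le.mp (hg3 i)
    split_ifs with hi
    · subst hi
      rw [leadingCoeff, hg1] at hg2
      have : (((Fin.last n : Fin (n + 1)) : ℕ)) = n := rfl
      rw [this] at h1 ⊢
      exact ⟨by omega, h1.2⟩
    · exact h1

lemma coprimePairs_eq (H : ℕ) : coprimePairs m n H =
    (fun x : Fin (m + 1) ⊕ Fin (n + 1) → ℤ => (fpoly x, gpoly x)) '' (Sv m n H : Set _) := by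
  classical
  ext ⟨f, g⟩
  constructor
  · rintro ⟨hf, hg, hc⟩
    obtain ⟨x, hx, rfl, rfl⟩ := exists_vec hf hg
    refine ⟨x, ?_, rfl⟩
    unfold Sv
    rw [Finset.mem_coe, Finset.mem_filter]
    exact ⟨hx, (coprime_iff x).mp hc⟩
  · rintro ⟨x, hx, h⟩
    unfold Sv at hx
    rw [Finset.mem_coe, Finset.mem_filter] at hx
    simp only [Prod.mk.injEq] at h
    obtain ⟨rfl, rfl⟩ := h
    exact ⟨fpoly_mem H hx.1, gpoly_mem H hx.1, (coprime_iff x).mpr hx.2⟩

lemma resultant_ne_of_coprime {f g : ℤ[X]} (h : CoprimeC f g) : resultant f g ≠ 0 := by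
  intro h0
  have hinj : Function.Injective (Int.castRingHom ℂ) := Int.cast_injective
  have h1 : resultant (f.map (Int.castRingHom ℂ)) (g.map (Int.castRingHom ℂ)) = 0 := by
    rw [natDegree_map_eq_of_injective hinj, natDegree_map_eq_of_injective hinj,
      resultant_map_map, h0, map_zero]
  rw [resultant_eq_zero_iff] at h1
  apply h1.2
  rw [isCoprime_iff_aeval_ne_zero_of_isAlgClosed ℂ ℂ]
  intro a
  by_contra hcon
  push Not at hcon
  apply h a
  simpa [aeval_def, eval₂_map] using hcon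

lemma equal_iff (hm : 1 ≤ m) (hn : 1 ≤ n) {H : ℕ} {x : Fin (m + 1) ⊕ Fin (n + 1) → ℤ}
    (hx : x ∈ BX m n H) (hc : CoprimeC (fpoly x) (gpoly x)) :
    bezoutDenominator (fpoly x) (gpoly x) = absResultant (fpoly x) (gpoly x) ↔
      ∀ l : ℕ, l.Prime → ¬ BadAt x l := by
  have hf := fpoly_mem H hx
  have hg := gpoly_mem H hx
  rw [bezout_eq_iff (fpoly x) (gpoly x) (by rw [hf.1]; exact hm) (by rw [hg.1]; exact hn)
    (resultant_ne_of_coprime hc), hf.1, hg.1]
  refine forall_congr' fun l => forall_congr' fun _ => ?_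
  unfold BadAt goodSet
  rw [not_not, fpoly_map, gpoly_map]
  rfl

lemma equalPairs_eq (hm : 1 ≤ m) (hn : 1 ≤ n) (H : ℕ) : equalPairs m n H =
    (fun x : Fin (m + 1) ⊕ Fin (n + 1) → ℤ => (fpoly x, gpoly x)) '' (Ev m n H : Set _) := by
  classical
  unfold equalPairs
  rw [coprimePairs_eq]
  ext ⟨f, g⟩
  constructor
  · rintro ⟨⟨x, hx, h⟩, heq⟩
    simp only [Prod.mk.injEq] at h
    obtain ⟨rfl, rfl⟩ := h
    have hx' := hx
    unfold Sv at hx'
    rw [Finset.mem_coe, Finset.mem_filter] at hx'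
    refine ⟨x, ?_, rfl⟩
    unfold Ev
    rw [Finset.mem_coe, Finset.mem_filter]
    exact ⟨hx, (equal_iff hm hn hx'.1 ((coprime_iff x).mpr hx'.2)).mp heq⟩
  · rintro ⟨x, hx, h⟩
    simp only [Prod.mk.injEq] at h
    obtain ⟨rfl, rfl⟩ := h
    unfold Ev at hx
    rw [Finset.mem_coe, Finset.mem_filter] at hx
    have hx' := hx.1
    unfold Sv at hx'
    rw [Finset.mem_filter] at hx'
    exact ⟨⟨x, hx.1, rfl⟩, (equal_iff hm hn hx'.1 ((coprime_iff x).mpr hx'.2)).mpr hx.2⟩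

theorem rho_tendsto (m n : ℕ) (hm : 2 ≤ m) (hn : 2 ≤ n) :
    Tendsto (fun H => rho m n H) atTop (𝓝 (36 / Real.pi ^ 4)) := by
  refine (ratio_tendsto (m := m) (n := n) hm hn).congr fun H => ?_
  unfold rho
  rw [equalPairs_eq (by omega) (by omega), coprimePairs_eq,
    Set.ncard_image_of_injective _ map_injective_pair,
    Set.ncard_image_of_injective _ map_injective_pair, Set.ncard_coe_finset,
    Set.ncard_coe_finset]

end Pool.Agent.MP32694d
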